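import Pool.Agent.H441SX.Defs

set_option autoImplicit false

namespace Pool.Agent.H441SX

theorem a0_aux {m : ℕ} (p : Fin (m + 1) → EuclideanSpace ℝ (Fin m)) :
    (Matrix.of (fun i j : Fin m => p i.succ j - p 0 j)).det ≠ 0 ↔ AffineIndependent ℝ p := by
  rw [affineIndependent_iff_linearIndependent_vsub ℝ p 0]
  have h1 : (Matrix.of (fun i j : Fin m => p i.succ j - p 0 j)).det ≠ 0 ↔
      LinearIndependent ℝ (Matrix.of (fun i j : Fin m => p i.succ j - p 0 j)).row := by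
    rw [← isUnit_iff_ne_zero, ← Matrix.isUnit_iff_isUnit_det,
      Matrix.linearIndependent_rows_iff_isUnit]
  rw [h1]
  let e : EuclideanSpace ℝ (Fin m) ≃ₗ[ℝ] (Fin m → ℝ) := (WithLp.linearEquiv 2 ℝ (Fin m → ℝ))
  have h2 : (Matrix.of (fun i j : Fin m => p i.succ j - p 0 j)).row =
      (e : EuclideanSpace ℝ (Fin m) →ₗ[ℝ] (Fin m → ℝ)) ∘ (fun i : Fin m => p i.succ -ᵥ p 0) := by
    funext i j
    simp [e, Matrix.row]
  rw [h2]
  rw [LinearMap.linearIndependent_iff (e : EuclideanSpace ℝ (Fin m) →ₗ[ℝ] (Fin m → ℝ))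
    (LinearEquiv.ker e)]
  let f : Fin m ≃ {x : Fin (m + 1) // x ≠ 0} := finSuccAboveEquiv 0
  rw [← linearIndependent_equiv f]
  rfl

theorem a0 (hB0 : B0) : A0 := by
  intro m p
  obtain ⟨c, hc, h⟩ := hB0 m
  rw [h p, ← a0_aux p]
  constructor
  · intro h1 h2
    rw [h2, abs_zero, mul_zero] at h1
    exact lt_irrefl _ h1
  · intro h1
    exact mul_pos hc (abs_pos.2 h1)

end Pool.Agent.H441SX
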