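import Pool.Agent.H441SX.Defs

/-! A1: the region where all barycentric coordinates are at most one -/

set_option autoImplicit false
open MeasureTheory

namespace Pool.Agent.H441SX

namespace TA1

theorem coord_hom {m : ℕ} (b : AffineBasis (Fin (m + 1)) ℝ (EuclideanSpace ℝ (Fin m)))
    (c x : EuclideanSpace ℝ (Fin m)) (r : ℝ) (i : Fin (m + 1)) :
    b.coord i (AffineMap.homothety c r x) = r * (b.coord i x - b.coord i c) + b.coord i c := by
  rw [AffineMap.homothety_eq_lineMap, AffineMap.apply_lineMap, AffineMap.lineMap_apply]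
  simp [smul_eq_mul]

end TA1

/-- **A1** -/
theorem a1 : A1 := by
  intro m b hm
  have hm0 : (0 : ℝ) < m := by exact_mod_cast hm
  have hm1 : (m : ℝ) ≠ 0 := hm0.ne'
  obtain ⟨c, hc⟩ : ∃ c : EuclideanSpace ℝ (Fin m), ∀ i, b.coord i c = ((m : ℝ) + 1)⁻¹ := by
    refine ⟨Finset.univ.centroid ℝ b, fun i => ?_⟩
    rw [AffineBasis.coord_apply_centroid b (Finset.mem_univ i), Finset.card_univ, Fintype.card_fin]
    push_cast
    rfl
  have hH : convexHull ℝ (Set.range b) = {x | ∀ i, 0 ≤ b.coord i x} :=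
    AffineBasis.convexHull_eq_nonneg_coord b
  have hsub : {x | ∀ i, b.coord i x ≤ 1} ⊆
      AffineMap.homothety c (-(m : ℝ)) '' convexHull ℝ (Set.range b) := by
    intro y hy
    refine ⟨AffineMap.homothety c (-(m : ℝ)⁻¹) y, ?_, ?_⟩
    · rw [hH]
      intro i
      rw [TA1.coord_hom, hc]
      have h1 : b.coord i y ≤ 1 := hy i
      have h2 : -(m : ℝ)⁻¹ * (b.coord i y - ((m : ℝ) + 1)⁻¹) + ((m : ℝ) + 1)⁻¹ =
          (1 - b.coord i y) * (m : ℝ)⁻¹ := by
        field_simp
        ring
      rw [h2]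
      exact mul_nonneg (by linarith) (inv_nonneg.2 hm0.le)
    · rw [← AffineMap.homothety_mul_apply, neg_mul_neg, mul_inv_cancel₀ hm1]
      simp
  have hcpt : IsCompact (AffineMap.homothety c (-(m : ℝ)) '' convexHull ℝ (Set.range b)) := by
    apply IsCompact.image
    · exact (Set.finite_range b).isCompact_convexHull (𝕜 := ℝ)
    · exact AffineMap.homothety_continuous c _
  refine ⟨hcpt.isBounded.subset hsub, ?_⟩
  have h1 : volume.real {x | ∀ i, b.coord i x ≤ 1} ≤
      volume.real (AffineMap.homothety c (-(m : ℝ)) '' convexHull ℝ (Set.range b)) :=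
    measureReal_mono hsub hcpt.measure_lt_top.ne
  refine h1.trans (le_of_eq ?_)
  rw [Measure.real, Measure.addHaar_image_homothety, ENNReal.toReal_mul,
    ENNReal.toReal_ofReal (abs_nonneg _), finrank_euclideanSpace, Fintype.card_fin, abs_pow,
    abs_neg, abs_of_pos hm0]
  rfl

end Pool.Agent.H441SX
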