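import Mathlib

set_option autoImplicit false

namespace Pool.Agent.H441SX

open Finset in
theorem sauer2 (m : ℕ) (A : Finset (Finset (Fin m))) (h : ∀ i j k : Fin m, i ≠ j → i ≠ k → j ≠ k →
    ¬ ((∃ w ∈ A, i ∈ w ∧ j ∈ w ∧ k ∈ w) ∧ (∃ w ∈ A, i ∈ w ∧ j ∈ w ∧ k ∉ w) ∧
      (∃ w ∈ A, i ∈ w ∧ j ∉ w ∧ k ∈ w) ∧ (∃ w ∈ A, i ∉ w ∧ j ∈ w ∧ k ∈ w))) :
    2 * A.card ≤ m ^ 2 + m + 2 := by
  have hvc : A.vcDim ≤ 2 := by
    refine Finset.sup_le ?_
    intro s hs
    rw [mem_shatterer] at hs
    by_contra hcon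
    push Not at hcon
    obtain ⟨t, hts, htc⟩ := Finset.exists_subset_card_eq (show 3 ≤ s.card from hcon)
    have hsh : A.Shatters t := hs.mono_right hts
    obtain ⟨i, j, k, hij, hik, hjk, rfl⟩ := Finset.card_eq_three.1 htc
    have key : ∀ (u w : Finset (Fin m)), ({i, j, k} : Finset (Fin m)) ∩ w = u →
        ∀ x, x ∈ ({i, j, k} : Finset (Fin m)) → (x ∈ w ↔ x ∈ u) := by
      rintro u w rfl x hx
      rw [mem_inter]
      exact ⟨fun h => ⟨hx, h⟩, fun h => h.2⟩
    refine h i j k hij hik hjk ⟨?_, ?_, ?_, ?_⟩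
    · obtain ⟨w, hw, hwi⟩ := hsh (t := {i, j, k}) (Subset.refl _)
      exact ⟨w, hw, (key _ _ hwi i (by simp)).2 (by simp), (key _ _ hwi j (by simp)).2 (by simp),
        (key _ _ hwi k (by simp)).2 (by simp)⟩
    · obtain ⟨w, hw, hwi⟩ := hsh (t := {i, j}) (by
        intro x hx
        rcases Finset.mem_insert.1 hx with rfl | hx
        · simp
        · rw [Finset.mem_singleton.1 hx]; simp)
      refine ⟨w, hw, (key _ _ hwi i (by simp)).2 (by simp), (key _ _ hwi j (by simp)).2 (by simp),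
        fun hk => ?_⟩
      have h0 := (key _ _ hwi k (by simp)).1 hk
      rw [Finset.mem_insert, Finset.mem_singleton] at h0
      rcases h0 with h0 | h0
      · exact hik h0.symm
      · exact hjk h0.symm
    · obtain ⟨w, hw, hwi⟩ := hsh (t := {i, k}) (by
        intro x hx
        rcases Finset.mem_insert.1 hx with rfl | hx
        · simp
        · rw [Finset.mem_singleton.1 hx]; simp)
      refine ⟨w, hw, (key _ _ hwi i (by simp)).2 (by simp), fun hk => ?_,
        (key _ _ hwi k (by simp)).2 (by simp)⟩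
      have h0 := (key _ _ hwi j (by simp)).1 hk
      rw [Finset.mem_insert, Finset.mem_singleton] at h0
      rcases h0 with h0 | h0
      · exact hij h0.symm
      · exact hjk h0
    · obtain ⟨w, hw, hwi⟩ := hsh (t := {j, k}) (by
        intro x hx
        rcases Finset.mem_insert.1 hx with rfl | hx
        · simp
        · rw [Finset.mem_singleton.1 hx]; simp)
      refine ⟨w, hw, fun hk => ?_, (key _ _ hwi j (by simp)).2 (by simp),
        (key _ _ hwi k (by simp)).2 (by simp)⟩
      have h0 := (key _ _ hwi i (by simp)).1 hk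
      rw [Finset.mem_insert, Finset.mem_singleton] at h0
      rcases h0 with h0 | h0
      · exact hij h0
      · exact hik h0
  have h1 : A.card ≤ ∑ k ∈ Finset.Iic A.vcDim, m.choose k := by
    have h2 := Finset.card_le_card_shatterer A
    have h3 := Finset.card_shatterer_le_sum_vcDim (𝒜 := A)
    rw [Fintype.card_fin] at h3
    exact h2.trans h3
  have h2 : ∑ k ∈ Finset.Iic A.vcDim, m.choose k ≤ ∑ k ∈ Finset.Iic 2, m.choose k :=
    Finset.sum_le_sum_of_subset (Finset.Iic_subset_Iic.2 hvc)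
  have h3 : ∑ k ∈ Finset.Iic 2, m.choose k = 1 + m + m.choose 2 := by
    have : (Finset.Iic 2 : Finset ℕ) = {0, 1, 2} := by decide
    rw [this]
    simp
    ring
  have h4 : 2 * m.choose 2 = m * (m - 1) := by
    rw [Nat.choose_two_right, Nat.mul_div_cancel' (Nat.even_mul_pred_self m).two_dvd]
  have h5 : m * (m - 1) + m = m ^ 2 := by
    cases m with
    | zero => rfl
    | succ k => simp; ring
  omega

end Pool.Agent.H441SX
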