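import Pool.Agent.H441SX.A9
import Pool.Agent.H441SX.G2

set_option autoImplicit false
open MeasureTheory

namespace Pool.Agent.H441SX

theorem real2 (q a b : ℝ) (hq0 : 0 < q) (hq : 1 < 2 * q ^ 3) (hq1 : q ≤ 1) (ha : q ^ 2 ≤ |a|) (ha1 : |a| ≤ 1)
    (hb : q ^ 2 ≤ |b|) (hb1 : |b| ≤ 1) (h1 : |a - b| ≤ 1) (h2 : a - b = 0 ∨ q ≤ |a - b|) : a = b := by
  have hq3 : q ^ 3 ≤ q ^ 2 := pow_le_pow_of_le_one hq0.le hq1 (by norm_num)
  have hq2 : q ^ 2 ≤ q := by nlinarith
  rcases h2 with h2 | h2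
  · linarith
  · exfalso
    rcases abs_cases a with ⟨ea, ha'⟩ | ⟨ea, ha'⟩ <;> rcases abs_cases b with ⟨eb, hb'⟩ | ⟨eb, hb'⟩ <;>
      rcases abs_cases (a - b) with ⟨ec, hc'⟩ | ⟨ec, hc'⟩ <;> rw [ea] at ha ha1 <;> rw [eb] at hb hb1 <;>
      rw [ec] at h1 h2 <;> linarith

theorem inj2 {n : ℕ} (i j : Fin n) (hij : i ≠ j) : Function.Injective ![i, j] := by
  intro a c hac
  fin_cases a <;> fin_cases c <;> simp_all

theorem inj3 {n : ℕ} (i j k : Fin n) (hij : i ≠ j) (hik : i ≠ k) (hjk : j ≠ k) :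
    Function.Injective ![i, j, k] := by
  intro a c hac
  fin_cases a <;> fin_cases c <;> simp_all

theorem quad (hA0 : A0) (m : ℕ) (S : Finset (EuclideanSpace ℝ (Fin m)))
    (hS : affineSpan ℝ (S : Set (EuclideanSpace ℝ (Fin m))) = ⊤)
    (hlt : bigT S ^ 3 < 2 * smallT S ^ 3) : 2 * S.card ≤ m ^ 2 + m + 2 := by
  classical
  obtain ⟨b, hb, h0, hmax⟩ := a9_basis S hS hA0
  have hT : bigT S = sv b := by
    refine le_antisymm (csSup_le ⟨_, b, hb, rfl⟩ ?_) (bigT_spec S b hb)
    rintro w ⟨p, hp, rfl⟩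
    exact hmax p hp
  set q : ℝ := smallT S / sv b with hq
  have ht0 : 0 < smallT S := (smallT_mem hA0 S hS).1
  have hq0 : 0 < q := div_pos ht0 h0
  have hq1 : q ≤ 1 := by
    rw [hq, div_le_one h0]
    exact smallT_spec S b hb h0
  have hq3 : 1 < 2 * q ^ 3 := by
    rw [hq, div_pow, ← mul_div_assoc, lt_div_iff₀ (by positivity), one_mul, ← hT]
    exact hlt
  have hq32 : q ^ 3 ≤ q ^ 2 := pow_le_pow_of_le_one hq0.le hq1 (by norm_num)
  have hq21 : q ^ 2 ≤ q := by nlinarith
  -- single coordinates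
  have F1 : ∀ x ∈ S, ∀ i, |b.coord i x| ≤ 1 ∧ (b.coord i x = 0 ∨ q ≤ |b.coord i x|) := by
    intro x hx i
    have h := minor S b hb h0 hmax (fun _ : Fin 1 => i) (fun a c _ => Subsingleton.elim a c)
      (fun _ => x) (fun _ => hx)
    rw [Matrix.det_fin_one] at h
    exact h
  have F1' : ∀ x ∈ S, ∀ i, b.coord i x ≠ 0 → q ≤ |b.coord i x| ∧ |b.coord i x| ≤ 1 := by
    intro x hx i hi
    exact ⟨((F1 x hx i).2).resolve_left hi, (F1 x hx i).1⟩
  -- two coordinates
  have F2 : ∀ x ∈ S, ∀ y ∈ S, ∀ i j, i ≠ j → b.coord i x ≠ 0 → b.coord j x ≠ 0 → b.coord i y ≠ 0 →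
      b.coord j y ≠ 0 → b.coord i x * b.coord j y = b.coord j x * b.coord i y := by
    intro x hx y hy i j hij hxi hxj hyi hyj
    have h := minor S b hb h0 hmax ![i, j] (inj2 i j hij) ![x, y] (by
      intro a
      fin_cases a
      · exact hx
      · exact hy)
    rw [Matrix.det_fin_two] at h
    simp only [Matrix.of_apply, Matrix.cons_val_zero, Matrix.cons_val_one] at h
    have hm1 : ∀ u v : ℝ, q ≤ |u| → |u| ≤ 1 → q ≤ |v| → |v| ≤ 1 → q ^ 2 ≤ |u * v| ∧ |u * v| ≤ 1 := by
      intro u v h1 h2 h3 h4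
      rw [abs_mul]
      constructor
      · nlinarith
      · exact mul_le_one₀ h2 (abs_nonneg _) h4
    obtain ⟨a1, a2⟩ := F1' x hx i hxi
    obtain ⟨a3, a4⟩ := F1' x hx j hxj
    obtain ⟨a5, a6⟩ := F1' y hy i hyi
    obtain ⟨a7, a8⟩ := F1' y hy j hyj
    obtain ⟨c1, c2⟩ := hm1 _ _ a1 a2 a7 a8
    obtain ⟨c3, c4⟩ := hm1 _ _ a3 a4 a5 a6
    exact real2 q _ _ hq0 hq3 hq1 c1 c2 c3 c4 h.1 h.2
  -- three coordinates
  have F3 : ∀ w ∈ S, ∀ u ∈ S, ∀ v ∈ S, ∀ z ∈ S, ∀ i j k, i ≠ j → i ≠ k → j ≠ k →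
      b.coord i w ≠ 0 → b.coord j w ≠ 0 → b.coord k w ≠ 0 →
      b.coord i u ≠ 0 → b.coord j u ≠ 0 → b.coord k u = 0 →
      b.coord i v ≠ 0 → b.coord j v = 0 → b.coord k v ≠ 0 →
      b.coord i z = 0 → b.coord j z ≠ 0 → b.coord k z ≠ 0 → False := by
    intro w hw u hu v hv z hz i j k hij hik hjk wi wj wk ui uj uk vi vj vk zi zj zk
    have e1 := F2 w hw u hu i j hij wi wj ui uj
    have e2 := F2 w hw v hv i k hik wi wk vi vk
    have e3 := F2 w hw z hz j k hjk wj wk zj zk
    have h := minor S b hb h0 hmax ![i, j, k] (inj3 i j k hij hik hjk) ![u, v, z] (by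
      intro a
      fin_cases a
      · exact hu
      · exact hv
      · exact hz)
    have h1 := h.1
    rw [Matrix.det_fin_three] at h1
    simp only [Matrix.of_apply, Matrix.cons_val_zero, Matrix.cons_val_one, Matrix.cons_val, uk, vj, zi] at h1
    have hprod : b.coord i w * b.coord k w * b.coord j w ≠ 0 := mul_ne_zero (mul_ne_zero wi wk) wj
    have e4 : b.coord j u * b.coord i v * b.coord k z = b.coord i u * b.coord k v * b.coord j z := by
      apply mul_left_cancel₀ hprod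
      calc b.coord i w * b.coord k w * b.coord j w * (b.coord j u * b.coord i v * b.coord k z)
          = (b.coord i w * b.coord j u) * (b.coord k w * b.coord i v) * (b.coord j w * b.coord k z) := by ring
        _ = (b.coord j w * b.coord i u) * (b.coord i w * b.coord k v) * (b.coord k w * b.coord j z) := by
            rw [e1, e2, e3]
        _ = _ := by ring
    obtain ⟨a1, -⟩ := F1' u hu i ui
    obtain ⟨a2, -⟩ := F1' v hv k vk
    obtain ⟨a3, -⟩ := F1' z hz j zj
    have e5 : |b.coord i u * b.coord k v * b.coord j z| ≥ q ^ 3 := by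
      rw [abs_mul, abs_mul]
      calc q ^ 3 = q * q * q := by ring
        _ ≤ _ := mul_le_mul (mul_le_mul a1 a2 hq0.le (abs_nonneg _)) a3 hq0.le (by positivity)
    have e6 : |-2 * (b.coord i u * b.coord k v * b.coord j z)| ≤ 1 := by
      convert h1 using 2
      linear_combination e4
    rw [abs_mul] at e6
    norm_num at e6
    rw [abs_mul, abs_mul] at e5
    linarith
  -- injectivity
  have hsum : ∀ x, b.coord 0 x + ∑ i : Fin m, b.coord i.succ x = 1 := by
    intro x
    have h := b.sum_coord_apply_eq_one x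
    rw [Fin.sum_univ_succ] at h
    exact h
  have L : ∀ x ∈ S, ∀ y ∈ S, (∀ i, b.coord i x = 0 ↔ b.coord i y = 0) → x = y := by
    intro x hx y hy hxy
    obtain ⟨j0, hj0⟩ : ∃ j0, b.coord j0 x ≠ 0 := by
      by_contra hcon
      push Not at hcon
      have h := b.sum_coord_apply_eq_one x
      rw [Finset.sum_eq_zero (fun i _ => hcon i)] at h
      exact zero_ne_one h
    have hj0' : b.coord j0 y ≠ 0 := fun h => hj0 ((hxy j0).2 h)
    have hpar : ∀ i, b.coord i y = (b.coord j0 y / b.coord j0 x) * b.coord i x := by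
      intro i
      by_cases hi : i = j0
      · rw [hi, div_mul_cancel₀ _ hj0]
      · by_cases hz : b.coord i x = 0
        · rw [hz, (hxy i).1 hz, mul_zero]
        · have hzy : b.coord i y ≠ 0 := fun h => hz ((hxy i).2 h)
          have h := F2 x hx y hy j0 i (Ne.symm hi) hj0 hz hj0' hzy
          field_simp
          linarith
    have h1 := b.sum_coord_apply_eq_one y
    rw [Finset.sum_congr rfl (fun i _ => hpar i), ← Finset.mul_sum, b.sum_coord_apply_eq_one x,
      mul_one] at h1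
    apply b.ext_elem
    intro i
    rw [hpar i, h1, one_mul]
  have K : ∀ x ∈ S, ∀ y ∈ S, (∀ i : Fin m, b.coord i.succ x = 0 ↔ b.coord i.succ y = 0) →
      b.coord 0 x = 0 → b.coord 0 y = 0 := by
    intro x hx y hy hxy hx0
    by_contra hy0
    obtain ⟨j0, hj0⟩ : ∃ j0 : Fin m, b.coord j0.succ x ≠ 0 := by
      by_contra hcon
      push Not at hcon
      have h := hsum x
      rw [Finset.sum_eq_zero (fun i _ => hcon i), hx0, add_zero] at h
      exact zero_ne_one h
    have hj0' : b.coord j0.succ y ≠ 0 := fun h => hj0 ((hxy j0).2 h)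
    have hpar : ∀ i : Fin m, b.coord i.succ y =
        (b.coord j0.succ y / b.coord j0.succ x) * b.coord i.succ x := by
      intro i
      by_cases hi : i = j0
      · rw [hi, div_mul_cancel₀ _ hj0]
      · by_cases hz : b.coord i.succ x = 0
        · rw [hz, (hxy i).1 hz, mul_zero]
        · have hzy : b.coord i.succ y ≠ 0 := fun h => hz ((hxy i).2 h)
          have h := F2 x hx y hy j0.succ i.succ (fun h => hi (Fin.succ_injective _ h).symm) hj0 hz hj0' hzy
          field_simp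
          linarith
    set lam : ℝ := b.coord j0.succ y / b.coord j0.succ x with hlam
    have h1 := hsum y
    have h2 := hsum x
    rw [Finset.sum_congr rfl (fun i _ => hpar i), ← Finset.mul_sum] at h1
    rw [hx0, zero_add] at h2
    rw [h2, mul_one] at h1
    obtain ⟨a1, a2⟩ := F1' x hx j0.succ hj0
    obtain ⟨a3, a4⟩ := F1' y hy j0.succ hj0'
    obtain ⟨a5, a6⟩ := F1' y hy 0 hy0
    have h3 : |b.coord j0.succ y| = |lam| * |b.coord j0.succ x| := by
      rw [← abs_mul, hpar j0]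
    have h4 : 0 ≤ lam := by
      have := (abs_le.1 a6).2
      linarith
    rw [abs_of_nonneg h4] at h3
    have h5 : q ≤ lam := by nlinarith
    have h6 : lam * q ≤ 1 := by nlinarith
    rcases abs_cases (b.coord 0 y) with ⟨ea, ha⟩ | ⟨ea, ha⟩
    · rw [ea] at a5; linarith
    · rw [ea] at a5
      have h7 : 1 + q ≤ lam := by linarith
      nlinarith
  let f : EuclideanSpace ℝ (Fin m) → Finset (Fin m) := fun x =>
    Finset.univ.filter (fun i : Fin m => b.coord i.succ x ≠ 0)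
  have hinj : Set.InjOn f (S : Set (EuclideanSpace ℝ (Fin m))) := by
    intro x hx y hy hxy
    have hx' : x ∈ S := hx
    have hy' : y ∈ S := hy
    have h1 : ∀ i : Fin m, b.coord i.succ x = 0 ↔ b.coord i.succ y = 0 := by
      intro i
      have h := Finset.ext_iff.1 hxy i
      simp only [f, Finset.mem_filter, Finset.mem_univ, true_and] at h
      exact not_iff_not.1 h
    refine L x hx' y hy' (fun i => ?_)
    refine Fin.cases ?_ (fun j => h1 j) i
    exact ⟨K x hx' y hy' h1, K y hy' x hx' (fun i => (h1 i).symm)⟩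
  have hcard : (S.image f).card = S.card := Finset.card_image_of_injOn hinj
  rw [← hcard]
  apply sauer2
  rintro i j k hij hik hjk ⟨⟨w', hw', w1, w2, w3⟩, ⟨u', hu', u1, u2, u3⟩, ⟨v', hv', v1, v2, v3⟩,
    ⟨z', hz', z1, z2, z3⟩⟩
  obtain ⟨w, hw, rfl⟩ := Finset.mem_image.1 hw'
  obtain ⟨u, hu, rfl⟩ := Finset.mem_image.1 hu'
  obtain ⟨v, hv, rfl⟩ := Finset.mem_image.1 hv'
  obtain ⟨z, hz, rfl⟩ := Finset.mem_image.1 hz'
  simp only [f, Finset.mem_filter, Finset.mem_univ, true_and, not_not] at w1 w2 w3 u1 u2 u3 v1 v2 v3 z1 z2 z3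
  exact F3 w hw u hu v hv z hz i.succ j.succ k.succ (fun h => hij (Fin.succ_injective _ h))
    (fun h => hik (Fin.succ_injective _ h)) (fun h => hjk (Fin.succ_injective _ h))
    w1 w2 w3 u1 u2 u3 v1 v2 v3 z1 z2 z3

end Pool.Agent.H441SX
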