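import Pool.Agent.H441SX.A10

set_option autoImplicit false
open MeasureTheory

namespace Pool.Agent.H441SX

theorem fin11 (hA0 : A0) (m n : ℕ) (hn : m ^ 2 + m + 2 < 2 * n)
    (hne : {r : ℝ | ∃ S : Finset (EuclideanSpace ℝ (Fin m)), S.card = n ∧
      affineSpan ℝ (S : Set (EuclideanSpace ℝ (Fin m))) = ⊤ ∧ r = bigT S / smallT S}.Nonempty) :
    (2 : ℝ) ^ (1 / 3 : ℝ) ≤ fmn m n := by
  refine le_csInf hne ?_
  rintro r ⟨S, hc, hS, rfl⟩
  obtain ⟨h0, p, hp, hpe⟩ := smallT_mem hA0 S hS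
  have hb : 0 ≤ bigT S := by
    have := bigT_spec S p hp
    rw [← hpe] at this
    linarith
  have h1 : 2 * smallT S ^ 3 ≤ bigT S ^ 3 := by
    by_contra hcon
    push Not at hcon
    have := quad hA0 m S hS hcon
    rw [hc] at this
    omega
  have h2 : (2 : ℝ) ≤ (bigT S / smallT S) ^ 3 := by
    rw [div_pow, le_div_iff₀ (by positivity)]
    exact h1
  by_contra hcon
  push Not at hcon
  have h3 : (bigT S / smallT S) ^ 3 < ((2 : ℝ) ^ (1 / 3 : ℝ)) ^ 3 :=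
    pow_lt_pow_left₀ hcon (div_nonneg hb h0.le) (by norm_num)
  have h4 : ((2 : ℝ) ^ (1 / 3 : ℝ)) ^ 3 = 2 := by
    rw [← Real.rpow_natCast, ← Real.rpow_mul (by norm_num)]
    norm_num
  linarith

end Pool.Agent.H441SX
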