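import Pool.Agent.H441SX.Defs

/-! Task A2 of MP_e51904_co (helper441): replacing a vertex of a simplex. -/

set_option autoImplicit false
open MeasureTheory

namespace Pool.Agent.H441SX

/-- extended matrix -/
noncomputable def a2N {m : ℕ} (p : Fin (m + 1) → EuclideanSpace ℝ (Fin m)) :
    Matrix (Fin (m + 1)) (Fin (m + 1)) ℝ :=
  Matrix.of fun i j => (Fin.cons (1 : ℝ) (fun k => p i k) : Fin (m + 1) → ℝ) j

theorem a2_det {m : ℕ} (p : Fin (m + 1) → EuclideanSpace ℝ (Fin m)) :
    (a2N p).det = (Matrix.of (fun i j : Fin m => p i.succ j - p 0 j)).det := by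
  let N' : Matrix (Fin (m + 1)) (Fin (m + 1)) ℝ :=
    Matrix.of fun i j => a2N p i j + (if i = 0 then 0 else -1) * a2N p 0 j
  have h1 : N'.det = (a2N p).det :=
    Matrix.det_eq_of_forall_row_eq_smul_add_const
      (fun i : Fin (m + 1) => if i = 0 then (0 : ℝ) else -1) 0 (by simp) (fun i j => by simp [N'])
  rw [← h1, Matrix.det_succ_column_zero, Fin.sum_univ_succ]
  have h2 : ∀ i : Fin m, N' i.succ 0 = 0 := by
    intro i
    simp [N', a2N]
  have h3 : N' 0 0 = 1 := by simp [N', a2N]
  have h4 : N'.submatrix (Fin.succAbove 0) Fin.succ =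
      Matrix.of (fun i j : Fin m => p i.succ j - p 0 j) := by
    ext i j
    simp [N', a2N, Matrix.submatrix_apply, sub_eq_add_neg]
  simp only [h2, mul_zero, zero_mul, Finset.sum_const_zero, add_zero, h3, h4]
  simp

theorem a2 (hB0 : B0) : A2 := by
  intro m b x i
  obtain ⟨c, -, h⟩ := hB0 m
  rw [h, h, ← a2_det, ← a2_det]
  have hN : a2N (Function.update b i x) =
      (a2N b).updateRow i (∑ k, b.coord k x • a2N b k) := by
    ext r j
    by_cases hr : r = i
    · subst hr
      rw [Matrix.updateRow_self, Finset.sum_apply]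
      simp only [Pi.smul_apply, smul_eq_mul]
      refine Fin.cases ?_ (fun l => ?_) j
      · simp [a2N, b.sum_coord_apply_eq_one x]
      · have h5 := congrArg (fun v : EuclideanSpace ℝ (Fin m) => v l)
          (b.linear_combination_coord_eq_self x)
        have h6 : (∑ i, b.coord i x • b i).ofLp l = ∑ i, b.coord i x * (b i).ofLp l := by
          rw [WithLp.ofLp_sum, Finset.sum_apply]
          rfl
        simp only [a2N, Matrix.of_apply, Fin.cons_succ, Function.update_self]
        exact h5.symm.trans h6
    · rw [Matrix.updateRow_ne hr]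
      simp [a2N, Function.update_of_ne hr]
  rw [hN, Matrix.det_updateRow_sum, smul_eq_mul, abs_mul]
  ring

end Pool.Agent.H441SX
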