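import Pool.Agent.H441SX.Defs

/-! Task A3 (helper627): upper bound for the volume of the convex hull. -/

set_option autoImplicit false
open MeasureTheory

namespace Pool.Agent.H441SX

theorem a3_basis {m : ℕ} (S : Set (EuclideanSpace ℝ (Fin m))) (hS : affineSpan ℝ S = ⊤) :
    ∃ p : Fin (m + 1) → EuclideanSpace ℝ (Fin m), (∀ i, p i ∈ S) ∧ AffineIndependent ℝ p := by
  obtain ⟨s, hs, b, hb⟩ := AffineBasis.exists_affine_subbasis hS
  have : Finite s := finite_set_of_fin_dim_affineIndependent ℝ (by simpa [hb] using b.ind)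
  have : Fintype s := Fintype.ofFinite s
  have hc : Fintype.card s = m + 1 := by
    have := b.card_eq_finrank_add_one
    simpa using this
  let e : Fin (m + 1) ≃ s := (Fintype.equivFinOfCardEq hc).symm
  refine ⟨fun i => b (e i), fun i => ?_, ?_⟩
  · rw [hb]; exact hs (e i).2
  · exact b.ind.comp_embedding e.toEmbedding

theorem a3_core {m : ℕ} (S : Finset (EuclideanSpace ℝ (Fin m)))
    (hS : affineSpan ℝ (S : Set (EuclideanSpace ℝ (Fin m))) = ⊤) (hA0 : A0) (hA2 : A2) :
    ∃ b : AffineBasis (Fin (m + 1)) ℝ (EuclideanSpace ℝ (Fin m)), (∀ i, b i ∈ S) ∧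
      (convexHull ℝ (S : Set (EuclideanSpace ℝ (Fin m)))) ⊆ {x | ∀ i, b.coord i x ≤ 1} := by
  classical
  obtain ⟨q, hq, hqi⟩ := a3_basis _ hS
  have hqS : ∀ i, q i ∈ S := fun i => by simpa using hq i
  have : Nonempty (Fin (m + 1) → {x // x ∈ S}) := ⟨fun i => ⟨q i, hqS i⟩⟩
  obtain ⟨p0, hp0⟩ := Finite.exists_max (fun f : Fin (m + 1) → {x // x ∈ S} =>
    sv (fun i => (f i : EuclideanSpace ℝ (Fin m))))
  have hmax : ∀ p : Fin (m + 1) → EuclideanSpace ℝ (Fin m), (∀ i, p i ∈ S) →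
      sv p ≤ sv (fun i => (p0 i : EuclideanSpace ℝ (Fin m))) := fun p hp =>
    hp0 (fun i => ⟨p i, hp i⟩)
  have hpos : 0 < sv (fun i => (p0 i : EuclideanSpace ℝ (Fin m))) :=
    lt_of_lt_of_le ((hA0 m q).2 hqi) (hmax q hqS)
  have hind := (hA0 m _).1 hpos
  have htop : affineSpan ℝ (Set.range (fun i => (p0 i : EuclideanSpace ℝ (Fin m)))) = ⊤ := by
    rw [hind.affineSpan_eq_top_iff_card_eq_finrank_add_one]; simp
  let b : AffineBasis (Fin (m + 1)) ℝ (EuclideanSpace ℝ (Fin m)) := ⟨_, hind, htop⟩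
  have hb : ∀ i, b i = (p0 i : EuclideanSpace ℝ (Fin m)) := fun i => rfl
  have hbf : (b : Fin (m + 1) → EuclideanSpace ℝ (Fin m)) = fun i => (p0 i : EuclideanSpace ℝ (Fin m)) := rfl
  refine ⟨b, fun i => by rw [hb]; exact (p0 i).2, ?_⟩
  apply convexHull_min
  · intro x hx i
    have hx' : x ∈ S := by simpa using hx
    have h1 := hA2 m b x i
    have h2 : sv (Function.update b i x) ≤ sv b := by
      rw [hbf]
      apply hmax
      intro k
      by_cases hk : k = i
      · subst hk; simpa using hx'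
      · simp [Function.update_of_ne hk]
    have hposb : 0 < sv b := hpos
    rw [h1] at h2
    have h3 : |b.coord i x| ≤ 1 := by
      by_contra hcon
      push Not at hcon
      nlinarith
    exact (le_abs_self _).trans h3
  · have : {x | ∀ i, b.coord i x ≤ 1} = ⋂ i, {x | b.coord i x ≤ 1} := by
      ext x; simp
    rw [this]
    apply convex_iInter
    intro i
    exact (convex_Iic (1 : ℝ)).affine_preimage (b.coord i)

theorem a3 (hA0 : A0) (hA1 : A1) (hA2 : A2) : A3 := by
  intro m S T hm hS hT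
  obtain ⟨b, hb, hsub⟩ := a3_core S hS hA0 hA2
  obtain ⟨h1, h2⟩ := hA1 m b hm
  calc volume.real (convexHull ℝ (S : Set (EuclideanSpace ℝ (Fin m))))
      ≤ volume.real {x | ∀ i, b.coord i x ≤ 1} :=
        measureReal_mono hsub h1.measure_lt_top.ne
    _ ≤ (m : ℝ) ^ m * sv b := h2
    _ ≤ (m : ℝ) ^ m * T := by
        apply mul_le_mul_of_nonneg_left (hT _ hb) (by positivity)

end Pool.Agent.H441SX
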