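import Pool.Agent.H441SX.Defs

set_option autoImplicit false
open MeasureTheory

namespace Pool.Agent.H441SX

theorem a4 : A4 := by
  intro m S hcard hspan
  classical
  by_contra hcon
  push Not at hcon
  obtain ⟨V, hV⟩ : ∃ V, V = (convexHull ℝ (S : Set (EuclideanSpace ℝ (Fin m)))).extremePoints ℝ :=
    ⟨_, rfl⟩
  have hVS : V ⊆ S := by rw [hV]; exact extremePoints_convexHull_subset
  have hVfin : V.Finite := S.finite_toSet.subset hVS
  have hcompact : IsCompact (convexHull ℝ (S : Set (EuclideanSpace ℝ (Fin m)))) :=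
    Set.Finite.isCompact_convexHull (𝕜 := ℝ) S.finite_toSet
  have hKM : closure (convexHull ℝ V) = convexHull ℝ (S : Set (EuclideanSpace ℝ (Fin m))) := by
    rw [hV]; exact closure_convexHull_extremePoints hcompact (convex_convexHull _ _)
  have hcl : closure (convexHull ℝ V) = convexHull ℝ V :=
    (Set.Finite.isClosed_convexHull (𝕜 := ℝ) hVfin).closure_eq
  have hVx : ∀ x ∈ V, x ∉ convexHull ℝ
      ((S.erase x : Finset _) : Set (EuclideanSpace ℝ (Fin m))) := by
    intro x hx hx'
    rw [hV] at hx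
    have h1 := ((convex_convexHull ℝ _).mem_extremePoints_iff_mem_sdiff_convexHull_sdiff.mp hx).2
    apply h1
    refine convexHull_mono ?_ hx'
    intro s hs
    rw [Finset.coe_erase] at hs
    exact ⟨subset_convexHull ℝ _ hs.1, hs.2⟩
  have hg : ∀ x : EuclideanSpace ℝ (Fin m), ∃ (ψ : EuclideanSpace ℝ (Fin m) →ₗ[ℝ] ℝ) (c : ℝ),
      x ∈ V → (ψ x + c = 1 ∧ ∀ s ∈ S, s ≠ x → ψ s + c = 0) := by
    intro x
    by_cases hx : x ∈ V
    · have hne := hcon x (hVS hx) (hVx x hx)
      obtain ⟨a, ha, hax⟩ : ∃ a ∈ S, a ≠ x := Finset.exists_mem_ne (by omega) x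
      obtain ⟨A, hA⟩ : ∃ A, A = affineSpan ℝ
        ((S.erase x : Finset _) : Set (EuclideanSpace ℝ (Fin m))) := ⟨_, rfl⟩
      have hSA : ∀ s ∈ S, s ≠ x → s ∈ A := fun s hs hsx => by
        rw [hA]
        exact subset_affineSpan ℝ _ (Finset.mem_coe.mpr (Finset.mem_erase.mpr ⟨hsx, hs⟩))
      have haA : a ∈ A := hSA a ha hax
      have hxA : x ∉ A := by
        intro h
        apply hne
        rw [eq_top_iff, ← hspan, ← hA]
        refine affineSpan_le.mpr ?_
        intro s hs
        by_cases hsx : s = x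
        · rw [hsx]; exact h
        · exact hSA s hs hsx
      have hd : x - a ∉ A.direction := fun h => hxA (by
        have h2 := AffineSubspace.vadd_mem_of_mem_direction h haA
        simpa using h2)
      obtain ⟨f, hf1, hf2⟩ := Submodule.exists_le_ker_of_notMem hd
      refine ⟨(f (x - a))⁻¹ • f, -((f (x - a))⁻¹ * f a), fun _ => ⟨?_, ?_⟩⟩
      · rw [LinearMap.smul_apply, smul_eq_mul, ← sub_eq_add_neg, ← mul_sub, ← map_sub]
        exact inv_mul_cancel₀ hf1
      · intro s hs hsx
        have h3 : s - a ∈ A.direction := AffineSubspace.vsub_mem_direction (hSA s hs hsx) haA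
        have h4 : f (s - a) = 0 := hf2 h3
        rw [LinearMap.smul_apply, smul_eq_mul, ← sub_eq_add_neg, ← mul_sub, ← map_sub, h4, mul_zero]
    · exact ⟨0, 0, fun h => absurd h hx⟩
  choose ψ c hψ using hg
  have hnai : ¬ AffineIndependent ℝ ((↑) : S → EuclideanSpace ℝ (Fin m)) := by
    intro h
    have h1 := h.card_le_finrank_succ
    have h2 := Submodule.finrank_le
      (vectorSpan ℝ (Set.range ((↑) : S → EuclideanSpace ℝ (Fin m))))
    rw [finrank_euclideanSpace_fin] at h2
    rw [Fintype.card_coe] at h1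
    omega
  obtain ⟨f, hf1, hf2, x, hxS, hfx⟩ := exists_nontrivial_relation_sum_zero_of_not_affine_ind hnai
  by_cases hxV : x ∈ V
  · apply hfx
    have h1 : ∑ e ∈ S, f e * (ψ x e + c x) = 0 := by
      have h2 : ∑ e ∈ S, f e * (ψ x e + c x) = ψ x (∑ e ∈ S, f e • e) + (∑ e ∈ S, f e) * c x := by
        rw [map_sum, Finset.sum_mul, ← Finset.sum_add_distrib]
        refine Finset.sum_congr rfl fun e _ => ?_
        rw [map_smul, smul_eq_mul]
        ring
      rw [h2, hf1, hf2, map_zero, zero_mul, add_zero]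
    rw [Finset.sum_eq_single_of_mem x hxS (fun e he hne => by
      rw [(hψ x hxV).2 e he hne, mul_zero]), (hψ x hxV).1, mul_one] at h1
    exact h1
  · have hxc : x ∈ convexHull ℝ V := by
      rw [← hcl, hKM]; exact subset_convexHull ℝ _ hxS
    have hsub : convexHull ℝ V ⊆ {w | (∑ v ∈ hVfin.toFinset, ψ v) w =
        1 - ∑ v ∈ hVfin.toFinset, c v} := by
      refine convexHull_min ?_ (convex_hyperplane (LinearMap.isLinear _) _)
      intro u hu
      have h3 : ∑ v ∈ hVfin.toFinset, (ψ v u + c v) = 1 := by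
        rw [Finset.sum_eq_single_of_mem u (hVfin.mem_toFinset.mpr hu) (fun v hv hne =>
          (hψ v (hVfin.mem_toFinset.mp hv)).2 u (hVS hu) hne.symm)]
        exact (hψ u hu).1
      rw [Finset.sum_add_distrib] at h3
      rw [Set.mem_ofPred_eq, LinearMap.sum_apply]
      linarith
    have h4 := hsub hxc
    rw [Set.mem_ofPred_eq, LinearMap.sum_apply] at h4
    have h5 : ∑ v ∈ hVfin.toFinset, (ψ v x + c v) = 0 := by
      refine Finset.sum_eq_zero fun v hv => ?_
      have hv' := hVfin.mem_toFinset.mp hv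
      exact (hψ v hv').2 x hxS (fun h => hxV (h ▸ hv'))
    rw [Finset.sum_add_distrib] at h5
    linarith

end Pool.Agent.H441SX
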