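import Pool.Agent.H441SX.Defs

/-! Task A5 (helper65): a simplex with one vertex at `x` which does not overlap the convex hull. -/

set_option autoImplicit false
open MeasureTheory

namespace Pool.Agent.H441SX

theorem a5 (hA5a : A5a) (hA0 : A0) : A5 := by
  intro m S x hS hx
  obtain ⟨g, q, hgx, hgS, hq, hqi⟩ := hA5a m S x hS hx
  let A : AffineSubspace ℝ (EuclideanSpace ℝ (Fin m)) :=
    AffineSubspace.comap g (affineSpan ℝ {(0 : ℝ)})
  have hmemA : ∀ y, y ∈ A ↔ g y = 0 := by
    intro y
    rw [AffineSubspace.mem_comap, AffineSubspace.mem_affineSpan_singleton]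
  have hxA : x ∉ A := by
    rw [hmemA, hgx]
    exact one_ne_zero
  have hAtop : A ≠ ⊤ := by
    intro h
    apply hxA
    rw [h]
    exact AffineSubspace.mem_top ℝ _ x
  refine ⟨Fin.cons x q, ?_, ?_, ?_⟩
  · intro i
    refine Fin.cases ?_ ?_ i
    · left
      simp
    · intro j
      right
      simpa using (hq j).1
  · rw [hA0]
    refine AffineIndependent.affineIndependent_of_notMem_span (i := (0 : Fin (m + 1))) ?_ ?_
    · rw [← affineIndependent_equiv (finSuccAboveEquiv (0 : Fin (m + 1)))]
      have hc : (fun y : {y : Fin (m + 1) // y ≠ 0} =>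
          (Fin.cons x q : Fin (m + 1) → EuclideanSpace ℝ (Fin m)) y) ∘
          (finSuccAboveEquiv (0 : Fin (m + 1))) = q := by
        funext j
        simp [finSuccAboveEquiv]
      rw [hc]
      exact hqi
    · intro h
      have hle : affineSpan ℝ ((Fin.cons x q : Fin (m + 1) → EuclideanSpace ℝ (Fin m)) ''
          {y | y ≠ 0}) ≤ A := by
        rw [affineSpan_le]
        rintro _ ⟨j, hj, rfl⟩
        obtain ⟨k, rfl⟩ := Fin.exists_succ_eq.mpr hj
        rw [Fin.cons_succ]
        exact (hmemA _).mpr (hq k).2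
      have h2 := hle h
      rw [Fin.cons_zero] at h2
      exact hxA h2
  · have hsub : convexHull ℝ (Set.range (Fin.cons x q : Fin (m + 1) → EuclideanSpace ℝ (Fin m))) ∩
        convexHull ℝ (S : Set (EuclideanSpace ℝ (Fin m))) ⊆ (A : Set _) := by
      rintro y ⟨hy1, hy2⟩
      have h1 : y ∈ g ⁻¹' Set.Ici 0 := by
        refine convexHull_min ?_ ((convex_Ici (0 : ℝ)).affine_preimage g) hy1
        rintro _ ⟨i, rfl⟩
        refine Fin.cases ?_ ?_ i
        · simp [hgx]
        · intro j
          simp [(hq j).2]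
      have h2 : y ∈ g ⁻¹' Set.Iic 0 := by
        refine convexHull_min ?_ ((convex_Iic (0 : ℝ)).affine_preimage g) hy2
        intro s hs
        exact hgS s hs
      have h3 : g y = 0 := le_antisymm h2 h1
      exact (hmemA y).mpr h3
    exact measure_mono_null hsub (Measure.addHaar_affineSubspace volume A hAtop)

end Pool.Agent.H441SX
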