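import Pool.Agent.H441SX.Defs

set_option autoImplicit false
open MeasureTheory

namespace Pool.Agent.H441SX

theorem a5a : A5a := by
  intro m S x hspan hx
  classical
  let E := EuclideanSpace ℝ (Fin m)
  let P : Set (E →ᵃ[ℝ] ℝ) := {g | g x = 1 ∧ ∀ s ∈ S, g s ≤ 0}
  -- a first function
  obtain ⟨g0, hg0⟩ : ∃ g0 : E →ᵃ[ℝ] ℝ, g0 ∈ P := by
    obtain ⟨f, u, h1, h2⟩ := geometric_hahn_banach_closed_point (convex_convexHull ℝ (S : Set E))
      (Set.Finite.isClosed_convexHull (𝕜 := ℝ) S.finite_toSet) hx
    have hpos : 0 < f x - u := by linarith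
    refine ⟨(f x - u)⁻¹ • ((f : E →ₗ[ℝ] ℝ).toAffineMap - AffineMap.const ℝ E u), ?_, ?_⟩
    · simp only [AffineMap.coe_smul, AffineMap.coe_sub, Pi.smul_apply, Pi.sub_apply,
        AffineMap.const_apply, LinearMap.coe_toAffineMap, smul_eq_mul]
      exact inv_mul_cancel₀ hpos.ne'
    · intro s hs
      simp only [AffineMap.coe_smul, AffineMap.coe_sub, Pi.smul_apply, Pi.sub_apply,
        AffineMap.const_apply, LinearMap.coe_toAffineMap, smul_eq_mul]
      have h3 : f s < u := h1 s (subset_convexHull ℝ _ (Finset.mem_coe.2 hs))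
      exact mul_nonpos_of_nonneg_of_nonpos (inv_nonneg.2 hpos.le) (by
        have : (f : E →ₗ[ℝ] ℝ) s = f s := rfl
        rw [this]; linarith)
  -- maximal number of zeros
  obtain ⟨g, hgP, hmax⟩ : ∃ g ∈ P, ∀ g' ∈ P,
      (S.filter (fun s => g' s = 0)).card ≤ (S.filter (fun s => g s = 0)).card := by
    obtain ⟨g, hg, hmin⟩ := (measure (fun g : E →ᵃ[ℝ] ℝ =>
      S.card - (S.filter (fun s => g s = 0)).card)).wf.has_min P ⟨g0, hg0⟩
    refine ⟨g, hg, fun g' hg' => ?_⟩
    have h1 : ¬ (S.card - (S.filter (fun s => g' s = 0)).card <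
      S.card - (S.filter (fun s => g s = 0)).card) := hmin g' hg'
    have h2 : (S.filter (fun s => g' s = 0)).card ≤ S.card := Finset.card_filter_le _ _
    have h3 : (S.filter (fun s => g s = 0)).card ≤ S.card := Finset.card_filter_le _ _
    omega
  obtain ⟨hgx, hgS⟩ := hgP
  let Z : Set E := {s | s ∈ S ∧ g s = 0}
  have htop : affineSpan ℝ (insert x Z) = ⊤ := by
    by_contra hne
    have hxA : x ∈ affineSpan ℝ (insert x Z) := subset_affineSpan ℝ _ (Set.mem_insert _ _)
    have hdir : (affineSpan ℝ (insert x Z)).direction < ⊤ := by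
      rw [lt_top_iff_ne_top]
      intro h
      exact hne ((AffineSubspace.direction_eq_top_iff_of_nonempty ⟨x, hxA⟩).1 h)
    obtain ⟨f0, hf0, hle⟩ := Submodule.exists_le_ker_of_lt_top _ hdir
    have hnz : ∃ s ∈ S, f0 (s - x) ≠ 0 := by
      by_contra hcon
      push Not at hcon
      apply hf0
      have h1 : vectorSpan ℝ (S : Set E) ≤ LinearMap.ker f0 := by
        rw [vectorSpan_def, Submodule.span_le]
        rintro v ⟨a, ha, b, hb, rfl⟩
        have h2 := hcon a (Finset.mem_coe.1 ha)
        have h3 := hcon b (Finset.mem_coe.1 hb)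
        rw [SetLike.mem_coe, LinearMap.mem_ker]
        have h4 : (a -ᵥ b : E) = (a - x) - (b - x) := by
          rw [vsub_eq_sub]; abel
        show f0 (a -ᵥ b) = 0
        rw [h4, map_sub, h2, h3, sub_zero]
      have h5 : vectorSpan ℝ (S : Set E) = ⊤ := by
        rw [← direction_affineSpan, hspan, AffineSubspace.direction_top]
      rw [h5, top_le_iff, LinearMap.ker_eq_top] at h1
      exact h1
    obtain ⟨f, hfz, s0, hs0, hpos0⟩ : ∃ f : E →ₗ[ℝ] ℝ, (∀ s ∈ Z, f (s - x) = 0) ∧
        ∃ s ∈ S, 0 < f (s - x) := by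
      have hz : ∀ s ∈ Z, f0 (s - x) = 0 := by
        intro s hs
        have h1 : s -ᵥ x ∈ (affineSpan ℝ (insert x Z)).direction :=
          AffineSubspace.vsub_mem_direction
            (subset_affineSpan ℝ _ (Set.mem_insert_of_mem _ hs)) hxA
        exact LinearMap.mem_ker.1 (hle h1)
      obtain ⟨s, hs, hsn⟩ := hnz
      rcases lt_or_gt_of_ne hsn with h | h
      · refine ⟨-f0, fun s hs => ?_, s, hs, ?_⟩
        · rw [LinearMap.neg_apply, hz s hs, neg_zero]
        · rw [LinearMap.neg_apply]; linarith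
      · exact ⟨f0, hz, s, hs, h⟩
    let h : E →ᵃ[ℝ] ℝ := f.toAffineMap - AffineMap.const ℝ E (f x)
    have hh : ∀ y, h y = f (y - x) := by
      intro y
      rw [map_sub]; rfl
    obtain ⟨s1, hs1, hmin1⟩ := Finset.exists_min_image (S.filter (fun s => 0 < h s))
      (fun s => (-g s) / (h s)) ⟨s0, Finset.mem_filter.2 ⟨hs0, by rw [hh]; exact hpos0⟩⟩
    obtain ⟨hs1S, hs1p⟩ := Finset.mem_filter.1 hs1
    let r : ℝ := (-g s1) / (h s1)
    have hr : 0 ≤ r := div_nonneg (by have := hgS s1 hs1S; linarith) hs1p.le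
    have hval : ∀ y, (g + r • h) y = g y + r * h y := fun y => rfl
    have hg' : (g + r • h) ∈ P := by
      refine ⟨?_, fun s hs => ?_⟩
      · rw [hval, hh, sub_self, map_zero, mul_zero, add_zero, hgx]
      · rw [hval]
        rcases le_or_gt (h s) 0 with hle0 | hgt
        · have := hgS s hs
          have := mul_nonpos_of_nonneg_of_nonpos hr hle0
          linarith
        · have h1 : r ≤ (-g s) / (h s) := hmin1 s (Finset.mem_filter.2 ⟨hs, hgt⟩)
          have h2 := (le_div_iff₀ hgt).1 h1
          linarith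
    have hlt : (S.filter (fun s => g s = 0)).card < (S.filter (fun s => (g + r • h) s = 0)).card := by
      apply Finset.card_lt_card
      rw [Finset.ssubset_iff_of_subset]
      · refine ⟨s1, Finset.mem_filter.2 ⟨hs1S, ?_⟩, ?_⟩
        · rw [hval]
          have : r * h s1 = -g s1 := div_mul_cancel₀ _ hs1p.ne'
          rw [this]; ring
        · intro hmem
          have hz := (Finset.mem_filter.1 hmem).2
          have : h s1 = 0 := by rw [hh]; exact hfz s1 ⟨hs1S, hz⟩
          linarith
      · intro s hs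
        obtain ⟨hsS, hsz⟩ := Finset.mem_filter.1 hs
        refine Finset.mem_filter.2 ⟨hsS, ?_⟩
        rw [hval, hsz, hh, hfz s ⟨hsS, hsz⟩, mul_zero, add_zero]
    exact absurd (hmax _ hg') (not_le.2 hlt)
  obtain ⟨t, htZ, htspan, hti⟩ := exists_affineIndependent ℝ E Z
  have htop2 : affineSpan ℝ (insert x t) = ⊤ := by
    rw [← affineSpan_insert_affineSpan, htspan, affineSpan_insert_affineSpan, htop]
  have hfin : Finite t := finite_set_of_fin_dim_affineIndependent ℝ hti
  have : Fintype t := Fintype.ofFinite t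
  have hcard : m ≤ Fintype.card t := by
    let p : Option t → E := fun o => o.elim x (fun y => (y : E))
    have hrange : Set.range p = insert x t := by
      ext y
      constructor
      · rintro ⟨o, rfl⟩
        cases o with
        | none => exact Set.mem_insert _ _
        | some z => exact Set.mem_insert_of_mem _ z.2
      · rintro (rfl | hy)
        · exact ⟨none, rfl⟩
        · exact ⟨some ⟨y, hy⟩, rfl⟩
    have h1 := finrank_vectorSpan_range_le ℝ p (n := Fintype.card t) (by rw [Fintype.card_option])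
    have h2 : vectorSpan ℝ (Set.range p) = ⊤ := by
      rw [hrange, ← direction_affineSpan, htop2, AffineSubspace.direction_top]
    rw [h2, finrank_top] at h1
    simpa [E] using h1
  let e : Fin m ↪ t := (Fin.castLEEmb hcard).trans (Fintype.equivFin t).symm.toEmbedding
  refine ⟨g, fun i => (e i : E), hgx, hgS, fun i => ?_, hti.comp_embedding e⟩
  have := htZ (e i).2
  exact this

end Pool.Agent.H441SX
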