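import Pool.Agent.H441SX.A3

set_option autoImplicit false
open MeasureTheory

namespace Pool.Agent.H441SX

theorem a6 (hA0 : A0) (hA4 : A4) (hA5 : A5) : A6 := by
  intro m S t
  classical
  obtain ⟨n, hn⟩ : ∃ n, n = S.card := ⟨_, rfl⟩
  induction n using Nat.strong_induction_on generalizing S with
  | _ n ih =>
  intro hspan ht
  have hfin : ∀ U : Finset (EuclideanSpace ℝ (Fin m)),
      volume (convexHull ℝ (U : Set (EuclideanSpace ℝ (Fin m)))) ≠ ⊤ := fun U =>
    (Set.Finite.isCompact_convexHull (𝕜 := ℝ) U.finite_toSet).measure_lt_top.ne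
  by_cases hc : m + 2 ≤ S.card
  · obtain ⟨x, hxS, hx, hsp⟩ := hA4 m S hc hspan
    obtain ⟨p, hp, hpos, hnull⟩ := hA5 m (S.erase x) x hsp hx
    have hpS : ∀ i, p i ∈ S := by
      intro i
      rcases hp i with h | h
      · rw [h]; exact hxS
      · exact Finset.mem_of_mem_erase h
    have hcard : (S.erase x).card = S.card - 1 := Finset.card_erase_of_mem hxS
    have h1 := ih (S.erase x).card (by rw [hcard, hn]; omega) (S.erase x) rfl hsp
      (fun q hq hq0 => ht q (fun i => Finset.mem_of_mem_erase (hq i)) hq0)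
    have h2 := ht p hpS hpos
    have hsub1 : convexHull ℝ ((S.erase x : Finset _) : Set (EuclideanSpace ℝ (Fin m))) ⊆
        convexHull ℝ (S : Set (EuclideanSpace ℝ (Fin m))) :=
      convexHull_mono (by intro y hy; exact Finset.mem_coe.2 (Finset.mem_of_mem_erase (Finset.mem_coe.1 hy)))
    have hsub2 : convexHull ℝ (Set.range p) ⊆ convexHull ℝ (S : Set (EuclideanSpace ℝ (Fin m))) :=
      convexHull_mono (by rintro y ⟨i, rfl⟩; exact Finset.mem_coe.2 (hpS i))
    have hmeas : MeasurableSet (convexHull ℝ ((S.erase x : Finset _) : Set (EuclideanSpace ℝ (Fin m)))) :=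
      (Set.Finite.isClosed_convexHull (𝕜 := ℝ) (S.erase x).finite_toSet).measurableSet
    have hfinp : volume (convexHull ℝ (Set.range p)) ≠ ⊤ :=
      ((measure_mono hsub2).trans_lt (lt_top_iff_ne_top.2 (hfin S))).ne
    have hadd : volume.real (convexHull ℝ (Set.range p)) +
        volume.real (convexHull ℝ ((S.erase x : Finset _) : Set (EuclideanSpace ℝ (Fin m)))) ≤
        volume.real (convexHull ℝ (S : Set (EuclideanSpace ℝ (Fin m)))) := by
      have h3 := measureReal_union_add_inter (μ := volume) (s := convexHull ℝ (Set.range p))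
        (t := convexHull ℝ ((S.erase x : Finset _) : Set (EuclideanSpace ℝ (Fin m)))) hmeas
        hfinp (hfin _)
      have h4 : volume.real (convexHull ℝ (Set.range p) ∩
          convexHull ℝ ((S.erase x : Finset _) : Set (EuclideanSpace ℝ (Fin m)))) = 0 := by
        rw [measureReal_def, hnull]; rfl
      rw [h4, add_zero] at h3
      rw [← h3]
      exact measureReal_mono (Set.union_subset hsub2 hsub1) (hfin S)
    have hcr : ((S.erase x).card : ℝ) = (S.card : ℝ) - 1 := by
      rw [hcard, Nat.cast_sub (by omega)]; norm_num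
    rw [hcr] at h1
    have h5 : sv p = volume.real (convexHull ℝ (Set.range p)) := rfl
    rw [← h5] at hadd
    linarith
  · obtain ⟨p, hp, hpi⟩ := a3_basis _ hspan
    have hpS : ∀ i, p i ∈ S := fun i => by simpa using hp i
    have hge : m + 1 ≤ S.card := by
      have := Finset.card_le_card_of_injOn (s := Finset.univ) (t := S) p (fun i _ => hpS i)
        (hpi.injective.injOn)
      simpa using this
    have heq : S.card = m + 1 := by omega
    have h2 := ht p hpS ((hA0 m p).2 hpi)
    have hsub2 : convexHull ℝ (Set.range p) ⊆ convexHull ℝ (S : Set (EuclideanSpace ℝ (Fin m))) :=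
      convexHull_mono (by rintro y ⟨i, rfl⟩; exact Finset.mem_coe.2 (hpS i))
    have h3 : sv p ≤ volume.real (convexHull ℝ (S : Set (EuclideanSpace ℝ (Fin m)))) :=
      measureReal_mono hsub2 (hfin S)
    rw [heq]
    push_cast
    have : ((m : ℝ) + 1 - m) * t = t := by ring
    rw [this]
    exact h2.trans h3

end Pool.Agent.H441SX
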