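import Pool.Agent.H441SX.B0
import Pool.Agent.H441SX.A3

set_option autoImplicit false
open MeasureTheory
open scoped Pointwise

namespace Pool.Agent.H441SX

namespace A7aux

/-- the vertices of a reflected standard simplex -/
noncomputable def rv (m : ℕ) (s : Fin m → Bool) : Fin (m + 1) → EuclideanSpace ℝ (Fin m) :=
  Fin.cons 0 (fun i => (if s i then (1 : ℝ) else -1) • EuclideanSpace.single i (1 : ℝ))

theorem rv_sv (m : ℕ) (c : ℝ) (h : ∀ p : Fin (m + 1) → EuclideanSpace ℝ (Fin m),
    sv p = c * |(Matrix.of (fun i j : Fin m => p i.succ j - p 0 j)).det|) (s : Fin m → Bool) :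
    sv (rv m s) = c := by
  rw [h]
  have h1 : (Matrix.of (fun i j : Fin m => rv m s i.succ j - rv m s 0 j)) =
      Matrix.diagonal (fun i => if s i then (1 : ℝ) else -1) := by
    ext i j
    rw [Matrix.of_apply, Matrix.diagonal_apply]
    simp only [rv, Fin.cons_succ, Fin.cons_zero]
    by_cases hij : i = j
    · subst hij
      by_cases hsi : s i = true <;> simp [hsi]
    · by_cases hsi : s i = true <;> simp [hsi, hij, Ne.symm hij]
  rw [h1, Matrix.det_diagonal, Finset.abs_prod]
  have h2 : ∀ i : Fin m, |(if s i then (1 : ℝ) else -1)| = 1 := by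
    intro i
    split_ifs <;> simp
  simp [h2]

theorem cross_sub (m : ℕ) :
    {x : EuclideanSpace ℝ (Fin m) | ∑ i, |x i| < 1} ⊆
      ⋃ s : Fin m → Bool, convexHull ℝ (Set.range (rv m s)) := by
  intro x hx
  have hx' : ∑ i, |x i| < 1 := hx
  rw [Set.mem_iUnion]
  refine ⟨fun i => decide (0 ≤ x i), ?_⟩
  set s : Fin m → Bool := fun i => decide (0 ≤ x i) with hs
  have hconv : Convex ℝ (convexHull ℝ (Set.range (rv m s))) := convex_convexHull ℝ _
  let w : Fin (m + 1) → ℝ := Fin.cons (1 - ∑ i, |x i|) (fun i => |x i|)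
  have hmem := hconv.sum_mem (t := Finset.univ) (w := w) (z := rv m s)
    (by
      intro i _
      refine Fin.cases ?_ (fun j => ?_) i
      · simp only [w, Fin.cons_zero]; linarith
      · simp only [w, Fin.cons_succ]; exact abs_nonneg _)
    (by rw [Fin.sum_univ_succ]; simp [w])
    (fun i _ => subset_convexHull ℝ _ ⟨i, rfl⟩)
  convert hmem using 1
  rw [Fin.sum_univ_succ]
  ext j
  simp only [w, rv, Fin.cons_zero, Fin.cons_succ, smul_zero, zero_add, WithLp.ofLp_sum,
    Finset.sum_apply, WithLp.ofLp_smul, Pi.smul_apply, smul_eq_mul]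
  rw [Finset.sum_eq_single j]
  · by_cases h0 : 0 ≤ x j
    · simp [hs, h0, abs_of_nonneg h0]
    · simp [hs, h0, abs_of_neg (not_le.1 h0)]
  · intro i _ hij
    have : ¬ j = i := fun h => hij h.symm
    simp [this]
  · intro h; exact absurd (Finset.mem_univ _) h

theorem cross_vol (m : ℕ) :
    volume {x : EuclideanSpace ℝ (Fin m) | ∑ i, |x i| < 1} =
      ENNReal.ofReal (2 ^ m / (m.factorial : ℝ)) := by
  have h1 := MeasureTheory.volume_sum_rpow_lt_one (Fin m) (p := 1) le_rfl
  have h2 : {x : EuclideanSpace ℝ (Fin m) | ∑ i, |x i| < 1} =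
      (@WithLp.ofLp 2 (Fin m → ℝ)) ⁻¹' {x : Fin m → ℝ | ∑ i, |x i| ^ (1 : ℝ) < 1} := by
    ext x
    simp
  have h3 : MeasurableSet {x : Fin m → ℝ | ∑ i, |x i| ^ (1 : ℝ) < 1} := by
    simp only [Real.rpow_one]
    exact measurableSet_lt (Finset.measurable_sum _ (fun i _ => (measurable_pi_apply i).abs))
      measurable_const
  rw [h2, (PiLp.volume_preserving_ofLp (Fin m)).measure_preimage h3.nullMeasurableSet, h1]
  congr 1
  rw [Fintype.card_fin]
  have h4 : Real.Gamma (1 / 1 + 1) = 1 := by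
    norm_num
  rw [h4, div_one, Real.Gamma_nat_eq_factorial, mul_one]

theorem one_le (m : ℕ) (c : ℝ) (hc : 0 < c) (h : ∀ p : Fin (m + 1) → EuclideanSpace ℝ (Fin m),
    sv p = c * |(Matrix.of (fun i j : Fin m => p i.succ j - p 0 j)).det|) :
    1 ≤ (m.factorial : ℝ) * c := by
  have hfin : ∀ s : Fin m → Bool, volume (convexHull ℝ (Set.range (rv m s))) ≠ ⊤ := fun s =>
    ((Set.finite_range (rv m s)).isCompact_convexHull (𝕜 := ℝ)).measure_lt_top.ne
  have h1 : volume {x : EuclideanSpace ℝ (Fin m) | ∑ i, |x i| < 1} ≤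
      ∑ s : Fin m → Bool, volume (convexHull ℝ (Set.range (rv m s))) :=
    (measure_mono (cross_sub m)).trans (measure_iUnion_fintype_le _ _)
  have h2 : ∀ s : Fin m → Bool, volume (convexHull ℝ (Set.range (rv m s))) = ENNReal.ofReal c := by
    intro s
    rw [← rv_sv m c h s]
    unfold sv
    rw [measureReal_def, ENNReal.ofReal_toReal (hfin s)]
  rw [cross_vol, Finset.sum_congr rfl (fun s _ => h2 s), Finset.sum_const, Finset.card_univ,
    Fintype.card_fun, Fintype.card_bool, Fintype.card_fin, nsmul_eq_mul,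
    ← ENNReal.ofReal_natCast, ← ENNReal.ofReal_mul (by positivity),
    ENNReal.ofReal_le_ofReal_iff (by positivity)] at h1
  push_cast at h1
  have hf : (0 : ℝ) < m.factorial := by exact_mod_cast m.factorial_pos
  rw [div_le_iff₀ hf] at h1
  have h3 : (0 : ℝ) < 2 ^ m := by positivity
  nlinarith

theorem half_vol (m : ℕ) (hm : 1 ≤ m) :
    volume {y : EuclideanSpace ℝ (Fin m) | (∀ i, |y i| ≤ 1) ∧ 0 ≤ ∑ i, y i} ≤
      ENNReal.ofReal (2 ^ (m - 1)) := by
  set H : Set (EuclideanSpace ℝ (Fin m)) := {y | (∀ i, |y i| ≤ 1) ∧ 0 ≤ ∑ i, y i} with hH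
  have hcube : volume {y : EuclideanSpace ℝ (Fin m) | ∀ i, |y i| ≤ 1} = ENNReal.ofReal (2 ^ m) := by
    have h2 : {y : EuclideanSpace ℝ (Fin m) | ∀ i, |y i| ≤ 1} =
        (@WithLp.ofLp 2 (Fin m → ℝ)) ⁻¹' (Set.Icc (fun _ => (-1 : ℝ)) (fun _ => (1 : ℝ))) := by
      ext y
      simp only [Set.mem_ofPred_eq, Set.mem_preimage, Set.mem_Icc, Pi.le_def, abs_le]
      exact ⟨fun h => ⟨fun i => (h i).1, fun i => (h i).2⟩, fun h i => ⟨h.1 i, h.2 i⟩⟩
    rw [h2, (PiLp.volume_preserving_ofLp (Fin m)).measure_preimage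
      measurableSet_Icc.nullMeasurableSet, Real.volume_Icc_pi]
    rw [Finset.prod_const, Finset.card_univ, Fintype.card_fin, ← ENNReal.ofReal_pow (by norm_num)]
    norm_num
  have hlin : Measurable (fun y : EuclideanSpace ℝ (Fin m) => ∑ i, y i) :=
    (continuous_finsetSum _ (fun i _ => by fun_prop)).measurable
  have hHm : MeasurableSet H := by
    apply MeasurableSet.inter
    · have : {y : EuclideanSpace ℝ (Fin m) | ∀ i, |y i| ≤ 1} =
          ⋂ i, {y : EuclideanSpace ℝ (Fin m) | |y i| ≤ 1} := by ext y; simp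
      show MeasurableSet {y : EuclideanSpace ℝ (Fin m) | ∀ i, |y i| ≤ 1}
      rw [this]
      refine MeasurableSet.iInter (fun i => ?_)
      have hci : Continuous (fun y : EuclideanSpace ℝ (Fin m) => |y i|) := by fun_prop
      exact measurableSet_le hci.measurable measurable_const
    · exact measurableSet_le measurable_const hlin
  have hneg : volume (-H) = volume H := Measure.measure_neg volume H
  have hnull : volume (H ∩ -H) = 0 := by
    let φ : EuclideanSpace ℝ (Fin m) →ₗ[ℝ] ℝ :=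
      { toFun := fun y => ∑ i, y i
        map_add' := by intro x y; simp [Finset.sum_add_distrib]
        map_smul' := by intro r x; simp [Finset.mul_sum] }
    have hker : LinearMap.ker φ ≠ ⊤ := by
      intro htop
      have h1 : φ (EuclideanSpace.single ⟨0, hm⟩ (1 : ℝ)) = 0 :=
        LinearMap.mem_ker.1 (htop ▸ Submodule.mem_top)
      have h2 : φ (EuclideanSpace.single ⟨0, hm⟩ (1 : ℝ)) = 1 := by
        show ∑ i, (EuclideanSpace.single (⟨0, hm⟩ : Fin m) (1 : ℝ)) i = 1
        simp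
      rw [h2] at h1
      exact one_ne_zero h1
    have h0 : volume (LinearMap.ker φ : Set (EuclideanSpace ℝ (Fin m))) = 0 :=
      Measure.addHaar_submodule _ _ hker
    refine measure_mono_null ?_ h0
    rintro y ⟨hy1, hy2⟩
    have h3 : 0 ≤ ∑ i, y i := hy1.2
    have h4 : 0 ≤ ∑ i, (-y) i := (Set.mem_neg.1 hy2).2
    have h5 : ∑ i, (-y) i = -∑ i, y i := by simp
    rw [h5] at h4
    exact LinearMap.mem_ker.2 (le_antisymm (show ∑ i, y i ≤ 0 by linarith) h3)
  have hsum : volume H + volume (-H) ≤ ENNReal.ofReal (2 ^ m) := by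
    rw [← measure_union_add_inter H hHm.neg, hnull, add_zero, ← hcube]
    refine measure_mono ?_
    rintro y (hy | hy)
    · exact hy.1
    · intro i
      have h6 := (Set.mem_neg.1 hy).1 i
      simpa using h6
  rw [hneg] at hsum
  have h7 : ENNReal.ofReal (2 ^ m) = 2 * ENNReal.ofReal (2 ^ (m - 1)) := by
    obtain ⟨k, rfl⟩ : ∃ k, m = k + 1 := ⟨m - 1, by omega⟩
    rw [Nat.add_sub_cancel, pow_succ, mul_comm, ENNReal.ofReal_mul (by norm_num)]
    norm_num
  rw [h7, ← two_mul] at hsum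
  exact (ENNReal.mul_le_mul_iff_right (by norm_num) (by norm_num)).1 hsum

end A7aux

/-- the region where all barycentric coordinates are in `[-1, 1]` -/
theorem a7 (m : ℕ) (hm : 1 ≤ m) (b : AffineBasis (Fin (m + 1)) ℝ (EuclideanSpace ℝ (Fin m))) :
    volume {x | ∀ i, |b.coord i x| ≤ 1} ≤ ENNReal.ofReal (2 ^ (m - 1) * (m.factorial : ℝ) * sv b) := by
  obtain ⟨c, hc, h⟩ := b0 m
  have h1 := A7aux.one_le m c hc h
  let L : EuclideanSpace ℝ (Fin m) →ₗ[ℝ] EuclideanSpace ℝ (Fin m) :=
    (B0aux.bs m).constr ℝ (fun i => b i.succ - b 0)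
  have hL : ∀ i, L (B0aux.bs m i) = b i.succ - b 0 := fun i => (B0aux.bs m).constr_basis ℝ _ i
  have hdet : LinearMap.det L = (Matrix.of (fun i j : Fin m => b i.succ j - b 0 j)).det := by
    rw [← LinearMap.det_toMatrix (B0aux.bs m) L, ← Matrix.det_transpose]
    congr 1
    ext i j
    rw [Matrix.transpose_apply, LinearMap.toMatrix_apply, hL]
    simp [B0aux.bs]
  have hsub : {x | ∀ i, |b.coord i x| ≤ 1} ⊆
      b 0 +ᵥ (L '' {y : EuclideanSpace ℝ (Fin m) | (∀ i, |y i| ≤ 1) ∧ 0 ≤ ∑ i, y i}) := by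
    intro x hx
    have hx' : ∀ i, |b.coord i x| ≤ 1 := hx
    have hsum : b.coord 0 x + ∑ i : Fin m, b.coord i.succ x = 1 := by
      have h0 := b.sum_coord_apply_eq_one x
      rw [Fin.sum_univ_succ] at h0
      exact h0
    rw [Set.mem_vadd_set]
    refine ⟨x - b 0, ⟨WithLp.toLp 2 (fun i : Fin m => b.coord i.succ x), ⟨fun i => hx' i.succ, ?_⟩, ?_⟩, ?_⟩
    · show 0 ≤ ∑ i : Fin m, b.coord i.succ x
      have := (abs_le.1 (hx' 0)).2
      linarith
    · have h2 : (WithLp.toLp 2 (fun i : Fin m => b.coord i.succ x) : EuclideanSpace ℝ (Fin m)) =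
          ∑ i : Fin m, b.coord i.succ x • B0aux.bs m i := by
        ext j
        simp only [B0aux.bs, OrthonormalBasis.coe_toBasis, EuclideanSpace.basisFun_apply, WithLp.ofLp_sum,
          Finset.sum_apply, WithLp.ofLp_smul, Pi.smul_apply, smul_eq_mul]
        rw [Finset.sum_eq_single j]
        · simp
        · intro i _ hij
          simp [hij.symm]
        · intro hj; exact absurd (Finset.mem_univ _) hj
      rw [h2, map_sum]
      simp only [map_smul, hL]
      have h3 := b.linear_combination_coord_eq_self x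
      rw [Fin.sum_univ_succ] at h3
      simp only [smul_sub, Finset.sum_sub_distrib, ← Finset.sum_smul]
      have h4 : ∑ i : Fin m, b.coord i.succ x = 1 - b.coord 0 x := by linarith
      rw [h4, sub_smul, one_smul]
      have h5 : ∑ i : Fin m, b.coord i.succ x • b i.succ = x - b.coord 0 x • b 0 := by
        rw [eq_sub_iff_add_eq, add_comm]; exact h3
      rw [h5]; abel
    · simp
  refine (measure_mono hsub).trans ?_
  rw [measure_vadd, Measure.addHaar_image_linearMap, hdet, h b]
  refine (mul_le_mul_right (A7aux.half_vol m hm) _).trans ?_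
  rw [← ENNReal.ofReal_mul (abs_nonneg _)]
  apply ENNReal.ofReal_le_ofReal
  have h6 : (0 : ℝ) ≤ 2 ^ (m - 1) := by positivity
  have h7 := abs_nonneg (Matrix.of (fun i j : Fin m => b i.succ j - b 0 j)).det
  have h8 : 0 ≤ |(Matrix.of (fun i j : Fin m => b i.succ j - b 0 j)).det| * 2 ^ (m - 1) :=
    mul_nonneg h7 h6
  calc |(Matrix.of (fun i j : Fin m => b i.succ j - b 0 j)).det| * 2 ^ (m - 1)
      ≤ (|(Matrix.of (fun i j : Fin m => b i.succ j - b 0 j)).det| * 2 ^ (m - 1)) *
        ((m.factorial : ℝ) * c) := le_mul_of_one_le_right h8 h1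
    _ = 2 ^ (m - 1) * (m.factorial : ℝ) *
        (c * |(Matrix.of (fun i j : Fin m => b i.succ j - b 0 j)).det|) := by ring

end Pool.Agent.H441SX
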