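import Pool.Agent.H441SX.Defs

/-! Final assembly for MP_e51904_co (helper441). -/

set_option autoImplicit false
open MeasureTheory

namespace Pool.Agent.H441SX

/-- `T(S)`: the largest volume of a simplex with vertices in `S` -/
noncomputable def bigT {m : ℕ} (S : Finset (EuclideanSpace ℝ (Fin m))) : ℝ :=
  sSup {v : ℝ | ∃ p : Fin (m + 1) → EuclideanSpace ℝ (Fin m), (∀ i, p i ∈ S) ∧ v = sv p}

/-- `t(S)`: the smallest positive volume of a simplex with vertices in `S` -/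
noncomputable def smallT {m : ℕ} (S : Finset (EuclideanSpace ℝ (Fin m))) : ℝ :=
  sInf {v : ℝ | 0 < v ∧ ∃ p : Fin (m + 1) → EuclideanSpace ℝ (Fin m), (∀ i, p i ∈ S) ∧ v = sv p}

/-- `f_m(n)`: the infimum of `T(S)/t(S)` over the `n`-point sets `S` not contained in a hyperplane -/
noncomputable def fmn (m n : ℕ) : ℝ :=
  sInf {r : ℝ | ∃ S : Finset (EuclideanSpace ℝ (Fin m)), S.card = n ∧
    affineSpan ℝ (S : Set (EuclideanSpace ℝ (Fin m))) = ⊤ ∧ r = bigT S / smallT S}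

lemma vals_finite {m : ℕ} (S : Finset (EuclideanSpace ℝ (Fin m))) :
    {v : ℝ | ∃ p : Fin (m + 1) → EuclideanSpace ℝ (Fin m), (∀ i, p i ∈ S) ∧ v = sv p}.Finite := by
  refine (Set.finite_range (fun g : Fin (m + 1) → {x // x ∈ S} =>
    sv (fun i => (g i : EuclideanSpace ℝ (Fin m))))).subset ?_
  rintro v ⟨p, hp, rfl⟩
  exact ⟨fun i => ⟨p i, hp i⟩, rfl⟩

lemma exists_pos (hA0 : A0) {m : ℕ} (S : Finset (EuclideanSpace ℝ (Fin m)))
    (hS : affineSpan ℝ (S : Set (EuclideanSpace ℝ (Fin m))) = ⊤) :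
    ∃ p : Fin (m + 1) → EuclideanSpace ℝ (Fin m), (∀ i, p i ∈ S) ∧ 0 < sv p := by
  obtain ⟨s, hs, b, hb⟩ := AffineBasis.exists_affine_subbasis hS
  have : Finite s := finite_set_of_fin_dim_affineIndependent ℝ (by simpa [hb] using b.ind)
  have : Fintype s := Fintype.ofFinite s
  have hc : Fintype.card s = m + 1 := by
    have := b.card_eq_finrank_add_one
    simpa using this
  let e : Fin (m + 1) ≃ s := (Fintype.equivFinOfCardEq hc).symm
  refine ⟨fun i => b (e i), fun i => ?_, ?_⟩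
  · rw [hb]; exact_mod_cast hs (e i).2
  · rw [hA0]; exact b.ind.comp_embedding e.toEmbedding

lemma bigT_spec {m : ℕ} (S : Finset (EuclideanSpace ℝ (Fin m)))
    (p : Fin (m + 1) → EuclideanSpace ℝ (Fin m)) (hp : ∀ i, p i ∈ S) : sv p ≤ bigT S :=
  le_csSup (vals_finite S).bddAbove ⟨p, hp, rfl⟩

lemma smallT_spec {m : ℕ} (S : Finset (EuclideanSpace ℝ (Fin m)))
    (p : Fin (m + 1) → EuclideanSpace ℝ (Fin m)) (hp : ∀ i, p i ∈ S) (h0 : 0 < sv p) :
    smallT S ≤ sv p :=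
  csInf_le ⟨0, fun _ hv => hv.1.le⟩ ⟨h0, p, hp, rfl⟩

lemma smallT_mem (hA0 : A0) {m : ℕ} (S : Finset (EuclideanSpace ℝ (Fin m)))
    (hS : affineSpan ℝ (S : Set (EuclideanSpace ℝ (Fin m))) = ⊤) :
    0 < smallT S ∧ ∃ p : Fin (m + 1) → EuclideanSpace ℝ (Fin m), (∀ i, p i ∈ S) ∧ smallT S = sv p := by
  obtain ⟨p, hp, h0⟩ := exists_pos hA0 S hS
  have hfin : {v : ℝ | 0 < v ∧ ∃ p : Fin (m + 1) → EuclideanSpace ℝ (Fin m),
      (∀ i, p i ∈ S) ∧ v = sv p}.Finite := (vals_finite S).subset fun v hv => hv.2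
  have hne : {v : ℝ | 0 < v ∧ ∃ p : Fin (m + 1) → EuclideanSpace ℝ (Fin m),
      (∀ i, p i ∈ S) ∧ v = sv p}.Nonempty := ⟨sv p, h0, p, hp, rfl⟩
  exact hne.csInf_mem hfin

lemma ratio_bound (hA0 : A0) (hA3 : A3) (hA6 : A6) {m : ℕ} (hm : 1 ≤ m)
    (S : Finset (EuclideanSpace ℝ (Fin m)))
    (hS : affineSpan ℝ (S : Set (EuclideanSpace ℝ (Fin m))) = ⊤) :
    ((S.card : ℝ) - m) / (m : ℝ) ^ m ≤ bigT S / smallT S ∧ 1 ≤ bigT S / smallT S := by
  obtain ⟨h0, p, hp, hpe⟩ := smallT_mem hA0 S hS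
  constructor
  · have h1 := hA6 m S (smallT S) hS (fun q hq h => smallT_spec S q hq h)
    have h2 := hA3 m S (bigT S) hm hS (fun q hq => bigT_spec S q hq)
    have hmm : (0 : ℝ) < (m : ℝ) ^ m := by positivity
    rw [div_le_div_iff₀ hmm h0]
    linarith
  · rw [le_div_iff₀ h0, one_mul, hpe]
    exact bigT_spec S p hp

theorem fin (hA0 : A0) (hA3 : A3) (hA6 : A6) (hB2 : B2) (m n : ℕ) (hm : 1 ≤ m) (hn : m + 1 ≤ n) :
    ((n : ℝ) - m) / (m : ℝ) ^ m ≤ fmn m n ∧ (4 * n ≤ (m + 2) ^ 2 → fmn m n = 1) := by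
  classical
  have hne : {r : ℝ | ∃ S : Finset (EuclideanSpace ℝ (Fin m)), S.card = n ∧
      affineSpan ℝ (S : Set (EuclideanSpace ℝ (Fin m))) = ⊤ ∧ r = bigT S / smallT S}.Nonempty := by
    obtain ⟨S₀, v, hc, hs, -⟩ := hB2 m (m + 1) le_rfl (by nlinarith)
    have : Nonempty (Fin m) := ⟨⟨0, hm⟩⟩
    have : Nontrivial (EuclideanSpace ℝ (Fin m)) := inferInstance
    have : Infinite (EuclideanSpace ℝ (Fin m)) := Module.Free.infinite ℝ _
    obtain ⟨S, hSS, hSc⟩ := Infinite.exists_superset_card_eq S₀ n (by omega)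
    refine ⟨_, S, hSc, ?_, rfl⟩
    rw [eq_top_iff, ← hs]
    exact affineSpan_mono ℝ (by exact_mod_cast hSS)
  constructor
  · refine le_csInf hne ?_
    rintro r ⟨S, hSc, hS, rfl⟩
    rw [← hSc]
    exact (ratio_bound hA0 hA3 hA6 hm S hS).1
  · intro h4
    refine le_antisymm ?_ ?_
    · obtain ⟨S, v, hc, hs, hv⟩ := hB2 m n hn h4
      refine csInf_le ⟨1, ?_⟩ ⟨S, hc, hs, ?_⟩
      · rintro r ⟨S', _, hS', rfl⟩
        exact (ratio_bound hA0 hA3 hA6 hm S' hS').2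
      · obtain ⟨h0, p, hp, hpe⟩ := smallT_mem hA0 S hs
        have hvt : smallT S = v := by
          rcases hv p hp with h | h
          · rw [hpe, h] at h0; exact absurd h0 (lt_irrefl _)
          · rw [hpe, h]
        have hv0 : 0 < v := hvt ▸ h0
        have hbt : bigT S = v := by
          refine le_antisymm (csSup_le ⟨_, p, hp, rfl⟩ ?_) ?_
          · rintro w ⟨q, hq, rfl⟩
            rcases hv q hq with h | h
            · rw [h]; exact hv0.le
            · rw [h]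
          · rw [← hvt, hpe]; exact bigT_spec S p hp
        rw [hbt, hvt, div_self hv0.ne']
    · refine le_csInf hne ?_
      rintro r ⟨S, hSc, hS, rfl⟩
      exact (ratio_bound hA0 hA3 hA6 hm S hS).2

end Pool.Agent.H441SX
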