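import Pool.Agent.H441SX.A7
import Pool.Agent.H441SX.Fin

/-! The bound with the constant `2 ^ (m - 1) * m!` (helper441). -/

set_option autoImplicit false
open MeasureTheory

namespace Pool.Agent.H441SX

theorem a8_core {m : ℕ} (S : Finset (EuclideanSpace ℝ (Fin m)))
    (hS : affineSpan ℝ (S : Set (EuclideanSpace ℝ (Fin m))) = ⊤) (hA0 : A0) (hA2 : A2) :
    ∃ b : AffineBasis (Fin (m + 1)) ℝ (EuclideanSpace ℝ (Fin m)), (∀ i, b i ∈ S) ∧
      (convexHull ℝ (S : Set (EuclideanSpace ℝ (Fin m)))) ⊆ {x | ∀ i, |b.coord i x| ≤ 1} := by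
  classical
  obtain ⟨q, hq, hqi⟩ := a3_basis _ hS
  have hqS : ∀ i, q i ∈ S := fun i => by simpa using hq i
  have : Nonempty (Fin (m + 1) → {x // x ∈ S}) := ⟨fun i => ⟨q i, hqS i⟩⟩
  obtain ⟨p0, hp0⟩ := Finite.exists_max (fun f : Fin (m + 1) → {x // x ∈ S} =>
    sv (fun i => (f i : EuclideanSpace ℝ (Fin m))))
  have hmax : ∀ p : Fin (m + 1) → EuclideanSpace ℝ (Fin m), (∀ i, p i ∈ S) →
      sv p ≤ sv (fun i => (p0 i : EuclideanSpace ℝ (Fin m))) := fun p hp =>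
    hp0 (fun i => ⟨p i, hp i⟩)
  have hpos : 0 < sv (fun i => (p0 i : EuclideanSpace ℝ (Fin m))) :=
    lt_of_lt_of_le ((hA0 m q).2 hqi) (hmax q hqS)
  have hind := (hA0 m _).1 hpos
  have htop : affineSpan ℝ (Set.range (fun i => (p0 i : EuclideanSpace ℝ (Fin m)))) = ⊤ := by
    rw [hind.affineSpan_eq_top_iff_card_eq_finrank_add_one]; simp
  let b : AffineBasis (Fin (m + 1)) ℝ (EuclideanSpace ℝ (Fin m)) := ⟨_, hind, htop⟩
  have hb : ∀ i, b i = (p0 i : EuclideanSpace ℝ (Fin m)) := fun i => rfl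
  have hbf : (b : Fin (m + 1) → EuclideanSpace ℝ (Fin m)) = fun i => (p0 i : EuclideanSpace ℝ (Fin m)) := rfl
  refine ⟨b, fun i => by rw [hb]; exact (p0 i).2, ?_⟩
  apply convexHull_min
  · intro x hx i
    have hx' : x ∈ S := by simpa using hx
    have h1 := hA2 m b x i
    have h2 : sv (Function.update b i x) ≤ sv b := by
      rw [hbf]
      apply hmax
      intro k
      by_cases hk : k = i
      · subst hk; simpa using hx'
      · simp [Function.update_of_ne hk]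
    have hposb : 0 < sv b := hpos
    rw [h1] at h2
    by_contra hcon
    push Not at hcon
    nlinarith
  · have : {x | ∀ i, |b.coord i x| ≤ 1} = ⋂ i, b.coord i ⁻¹' (Set.Icc (-1 : ℝ) 1) := by
      ext x; simp [abs_le]
    rw [this]
    apply convex_iInter
    intro i
    exact (convex_Icc (-1 : ℝ) 1).affine_preimage (b.coord i)

theorem a8 (hA0 : A0) (hA2 : A2) (m : ℕ) (S : Finset (EuclideanSpace ℝ (Fin m))) (T : ℝ) (hm : 1 ≤ m)
    (hS : affineSpan ℝ (S : Set (EuclideanSpace ℝ (Fin m))) = ⊤)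
    (hT : ∀ p : Fin (m + 1) → EuclideanSpace ℝ (Fin m), (∀ i, p i ∈ S) → sv p ≤ T) :
    volume.real (convexHull ℝ (S : Set (EuclideanSpace ℝ (Fin m)))) ≤
      2 ^ (m - 1) * (m.factorial : ℝ) * T := by
  obtain ⟨b, hb, hsub⟩ := a8_core S hS hA0 hA2
  have h1 := (measure_mono hsub).trans (a7 m hm b)
  have h2 : 0 ≤ 2 ^ (m - 1) * (m.factorial : ℝ) * sv b := by
    have : 0 ≤ sv b := measureReal_nonneg
    positivity
  have h3 : volume.real (convexHull ℝ (S : Set (EuclideanSpace ℝ (Fin m)))) ≤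
      2 ^ (m - 1) * (m.factorial : ℝ) * sv b := by
    rw [measureReal_def]
    exact ENNReal.toReal_le_of_le_ofReal h2 h1
  refine h3.trans ?_
  exact mul_le_mul_of_nonneg_left (hT _ hb) (by positivity)

theorem fin8 (hA0 : A0) (hA2 : A2) (hA6 : A6) (m n : ℕ) (hm : 1 ≤ m)
    (hne : {r : ℝ | ∃ S : Finset (EuclideanSpace ℝ (Fin m)), S.card = n ∧
      affineSpan ℝ (S : Set (EuclideanSpace ℝ (Fin m))) = ⊤ ∧ r = bigT S / smallT S}.Nonempty) :
    ((n : ℝ) - m) / (2 ^ (m - 1) * (m.factorial : ℝ)) ≤ fmn m n := by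
  refine le_csInf hne ?_
  rintro r ⟨S, hc, hS, rfl⟩
  obtain ⟨h0, p, hp, hpe⟩ := smallT_mem hA0 S hS
  have h1 := hA6 m S (smallT S) hS (fun q hq h => smallT_spec S q hq h)
  have h2 := a8 hA0 hA2 m S (bigT S) hm hS (fun q hq => bigT_spec S q hq)
  have hmm : (0 : ℝ) < 2 ^ (m - 1) * (m.factorial : ℝ) := by
    have : (0 : ℝ) < m.factorial := by exact_mod_cast m.factorial_pos
    positivity
  rw [div_le_div_iff₀ hmm h0, ← hc]
  linarith

end Pool.Agent.H441SX
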