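import Pool.Agent.H441SX.Defs

/-! B0: the volume of a simplex is a positive constant times `|det|` (helper908). -/

set_option autoImplicit false
open MeasureTheory
open scoped Pointwise

namespace Pool.Agent.H441SX

namespace B0aux

variable (m : ℕ)

/-- the standard basis -/
noncomputable def bs : Module.Basis (Fin m) ℝ (EuclideanSpace ℝ (Fin m)) :=
  (EuclideanSpace.basisFun (Fin m) ℝ).toBasis

/-- the vertices of the standard simplex -/
noncomputable def ev : Fin (m + 1) → EuclideanSpace ℝ (Fin m) := Fin.cons 0 (fun i => bs m i)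

theorem pos : 0 < sv (ev m) := by
  unfold sv
  have hspan : affineSpan ℝ (Set.range (ev m)) = ⊤ := by
    rw [AffineSubspace.affineSpan_eq_top_iff_vectorSpan_eq_top_of_nonempty ℝ _ _
      (Set.range_nonempty _), vectorSpan_range_eq_span_range_vsub_right ℝ (ev m) 0, eq_top_iff,
      ← (bs m).span_eq]
    refine Submodule.span_mono ?_
    rintro _ ⟨i, rfl⟩
    refine ⟨i.succ, ?_⟩
    simp [ev]
  have hint : (interior (convexHull ℝ (Set.range (ev m)))).Nonempty :=
    interior_convexHull_nonempty_iff_affineSpan_eq_top.2 hspan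
  have hfin : volume (convexHull ℝ (Set.range (ev m))) ≠ ⊤ :=
    ((Set.finite_range (ev m)).isCompact_convexHull ℝ).measure_lt_top.ne
  rw [measureReal_def]
  refine ENNReal.toReal_pos ?_ hfin
  exact (MeasureTheory.Measure.measure_pos_of_nonempty_interior _ hint).ne'

theorem image (p : Fin (m + 1) → EuclideanSpace ℝ (Fin m))
    (L : EuclideanSpace ℝ (Fin m) →ₗ[ℝ] EuclideanSpace ℝ (Fin m))
    (hL : ∀ i, L (bs m i) = p i.succ - p 0) :
    convexHull ℝ (Set.range p) = p 0 +ᵥ (L '' convexHull ℝ (Set.range (ev m))) := by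
  rw [LinearMap.image_convexHull, ← convexHull_vadd]
  congr 1
  rw [← Set.range_comp, ← Set.image_vadd, ← Set.range_comp]
  congr 1
  funext i
  refine Fin.cases ?_ (fun j => ?_) i
  · simp [ev]
  · simp [ev, hL]

end B0aux

open B0aux in
theorem b0 : B0 := by
  intro m
  refine ⟨sv (ev m), pos m, fun p => ?_⟩
  let L : EuclideanSpace ℝ (Fin m) →ₗ[ℝ] EuclideanSpace ℝ (Fin m) :=
    (bs m).constr ℝ (fun i => p i.succ - p 0)
  have hL : ∀ i, L (bs m i) = p i.succ - p 0 := fun i => (bs m).constr_basis ℝ _ i
  have hdet : LinearMap.det L = (Matrix.of (fun i j : Fin m => p i.succ j - p 0 j)).det := by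
    rw [← LinearMap.det_toMatrix (bs m) L, ← Matrix.det_transpose]
    congr 1
    ext i j
    rw [Matrix.transpose_apply, LinearMap.toMatrix_apply, hL]
    simp [bs]
  unfold sv
  rw [image m p L hL, measureReal_def, measure_vadd, Measure.addHaar_image_linearMap, hdet,
    ENNReal.toReal_mul, ENNReal.toReal_ofReal (abs_nonneg _), mul_comm, measureReal_def]

end Pool.Agent.H441SX
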