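import Pool.Agent.H441SX.A2
import Pool.Agent.H441SX.B0
import Pool.Agent.H441SX.A8

set_option autoImplicit false
open MeasureTheory

namespace Pool.Agent.H441SX

theorem sv_coord (m : ℕ) (b : AffineBasis (Fin (m + 1)) ℝ (EuclideanSpace ℝ (Fin m)))
    (p : Fin (m + 1) → EuclideanSpace ℝ (Fin m)) :
    sv p = |(Matrix.of (fun i j => b.coord j (p i))).det| * sv b := by
  obtain ⟨c, -, h⟩ := b0 m
  rw [h, h b, ← a2_det, ← a2_det]
  have hN : a2N p = (Matrix.of (fun i j => b.coord j (p i))) * a2N b := by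
    ext i j
    rw [Matrix.mul_apply]
    refine Fin.cases ?_ (fun l => ?_) j
    · simp [a2N, b.sum_coord_apply_eq_one (p i)]
    · have h5 := congrArg (fun v : EuclideanSpace ℝ (Fin m) => v l)
          (b.linear_combination_coord_eq_self (p i))
      have h6 : (∑ k, b.coord k (p i) • b k).ofLp l = ∑ k, b.coord k (p i) * (b k).ofLp l := by
        rw [WithLp.ofLp_sum, Finset.sum_apply]
        rfl
      simp only [a2N, Matrix.of_apply, Fin.cons_succ]
      exact h5.symm.trans h6
  rw [hN, Matrix.det_mul, abs_mul]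
  ring

theorem det_inst {α : Type*} (D D' : DecidableEq α) (I J : Fintype α) (N : Matrix α α ℝ) :
    @Matrix.det α D I ℝ _ N = @Matrix.det α D' J ℝ _ N := by
  rw [Subsingleton.elim I J, Subsingleton.elim D D']

theorem det_sub {n r : ℕ} (M : Matrix (Fin n) (Fin n) ℝ) (e : Fin r → Fin n)
    (he : Function.Injective e) (h : ∀ l, l ∉ Set.range e → M l = Pi.single l 1) :
    M.det = (M.submatrix e e).det := by
  classical
  rw [Matrix.twoBlockTriangular_det M (fun l => l ∈ Set.range e) ?_]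
  · have h1 : (Matrix.toSquareBlockProp M fun i => ¬ i ∈ Set.range e) = 1 := by
      ext a b
      rw [Matrix.toSquareBlockProp_def, Matrix.of_apply, h a a.2, Matrix.one_apply, Pi.single_apply]
      simp [Subtype.ext_iff, eq_comm]
    rw [h1, Matrix.det_one, mul_one]
    have h2 : M.submatrix e e = (Matrix.toSquareBlockProp M (fun l => l ∈ Set.range e)).submatrix
      (Equiv.ofInjective e he) (Equiv.ofInjective e he) := rfl
    rw [h2, Matrix.det_submatrix_equiv_self]
    exact det_inst _ _ _ _ _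
  · intro i hi j hj
    rw [h i hi, Pi.single_apply, if_neg]
    rintro rfl
    exact hi hj

theorem a9_basis {m : ℕ} (S : Finset (EuclideanSpace ℝ (Fin m)))
    (hS : affineSpan ℝ (S : Set (EuclideanSpace ℝ (Fin m))) = ⊤) (hA0 : A0) :
    ∃ b : AffineBasis (Fin (m + 1)) ℝ (EuclideanSpace ℝ (Fin m)), (∀ i, b i ∈ S) ∧ 0 < sv b ∧
      ∀ p : Fin (m + 1) → EuclideanSpace ℝ (Fin m), (∀ i, p i ∈ S) → sv p ≤ sv b := by
  classical
  obtain ⟨q, hq, hqi⟩ := a3_basis _ hS
  have hqS : ∀ i, q i ∈ S := fun i => by simpa using hq i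
  have : Nonempty (Fin (m + 1) → {x // x ∈ S}) := ⟨fun i => ⟨q i, hqS i⟩⟩
  obtain ⟨p0, hp0⟩ := Finite.exists_max (fun f : Fin (m + 1) → {x // x ∈ S} =>
    sv (fun i => (f i : EuclideanSpace ℝ (Fin m))))
  have hmax : ∀ p : Fin (m + 1) → EuclideanSpace ℝ (Fin m), (∀ i, p i ∈ S) →
      sv p ≤ sv (fun i => (p0 i : EuclideanSpace ℝ (Fin m))) := fun p hp =>
    hp0 (fun i => ⟨p i, hp i⟩)
  have hpos : 0 < sv (fun i => (p0 i : EuclideanSpace ℝ (Fin m))) :=
    lt_of_lt_of_le ((hA0 m q).2 hqi) (hmax q hqS)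
  have hind := (hA0 m _).1 hpos
  have htop : affineSpan ℝ (Set.range (fun i => (p0 i : EuclideanSpace ℝ (Fin m)))) = ⊤ := by
    rw [hind.affineSpan_eq_top_iff_card_eq_finrank_add_one]; simp
  let b : AffineBasis (Fin (m + 1)) ℝ (EuclideanSpace ℝ (Fin m)) := ⟨_, hind, htop⟩
  exact ⟨b, fun i => (p0 i).2, hpos, hmax⟩

theorem minor {m r : ℕ} (S : Finset (EuclideanSpace ℝ (Fin m)))
    (b : AffineBasis (Fin (m + 1)) ℝ (EuclideanSpace ℝ (Fin m))) (hb : ∀ i, b i ∈ S) (h0 : 0 < sv b)
    (hmax : ∀ p : Fin (m + 1) → EuclideanSpace ℝ (Fin m), (∀ i, p i ∈ S) → sv p ≤ sv b)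
    (e : Fin r → Fin (m + 1)) (he : Function.Injective e)
    (w : Fin r → EuclideanSpace ℝ (Fin m)) (hw : ∀ a, w a ∈ S) :
    |(Matrix.of (fun a c => b.coord (e c) (w a))).det| ≤ 1 ∧
    ((Matrix.of (fun a c => b.coord (e c) (w a))).det = 0 ∨
      smallT S / sv b ≤ |(Matrix.of (fun a c => b.coord (e c) (w a))).det|) := by
  classical
  let p : Fin (m + 1) → EuclideanSpace ℝ (Fin m) := Function.extend e w b
  have hpe : ∀ a, p (e a) = w a := fun a => he.extend_apply w b a
  have hpn : ∀ l, l ∉ Set.range e → p l = b l := fun l hl =>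
    Function.extend_apply' w b l (fun ⟨a, ha⟩ => hl ⟨a, ha⟩)
  have hp : ∀ l, p l ∈ S := by
    intro l
    by_cases hl : l ∈ Set.range e
    · obtain ⟨a, rfl⟩ := hl
      rw [hpe]; exact hw a
    · rw [hpn l hl]; exact hb l
  have h1 := sv_coord m b p
  have h2 := det_sub (Matrix.of (fun i j => b.coord j (p i))) e he (fun l hl => by
    ext j
    rw [Matrix.of_apply, hpn l hl, b.coord_apply, Pi.single_apply])
  have h3 : (Matrix.of (fun i j => b.coord j (p i))).submatrix e e =
      Matrix.of (fun a c => b.coord (e c) (w a)) := by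
    ext a c
    simp [hpe]
  rw [h3] at h2
  rw [h2] at h1
  constructor
  · have h4 := hmax p hp
    rw [h1] at h4
    by_contra hcon
    push Not at hcon
    nlinarith
  · by_cases hz : (Matrix.of (fun a c => b.coord (e c) (w a))).det = 0
    · exact Or.inl hz
    · right
      have h5 : 0 < sv p := by rw [h1]; exact mul_pos (abs_pos.2 hz) h0
      have h6 := smallT_spec S p hp h5
      rw [div_le_iff₀ h0, ← h1]
      exact h6

end Pool.Agent.H441SX
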