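import Pool.Agent.H441SX.Defs

set_option autoImplicit false
open MeasureTheory

namespace Pool.Agent.H441SX

/-- the points of the product of two simplices -/
def b1P (a b : ℕ) (w : Option (Fin a) × Option (Fin b)) (k : Fin (a + b)) : ℝ :=
  Sum.elim (fun i => if w.1 = some i then (1 : ℝ) else 0) (fun j => if w.2 = some j then (1 : ℝ) else 0)
      (finSumFinEquiv.symm k)

theorem b1P_left (a b : ℕ) (w : Option (Fin a) × Option (Fin b)) (i : Fin a) :
    b1P a b w (Fin.castAdd b i) = if w.1 = some i then (1 : ℝ) else 0 := by
  unfold b1P
  rw [finSumFinEquiv_symm_apply_castAdd]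
  rfl

theorem b1P_right (a b : ℕ) (w : Option (Fin a) × Option (Fin b)) (j : Fin b) :
    b1P a b w (Fin.natAdd a j) = if w.2 = some j then (1 : ℝ) else 0 := by
  unfold b1P
  rw [finSumFinEquiv_symm_apply_natAdd]
  rfl

theorem b1_opt {n : ℕ} (x y : Option (Fin n))
    (h : ∀ i : Fin n, (if x = some i then (1 : ℝ) else 0) = if y = some i then (1 : ℝ) else 0) : x = y := by
  cases x with
  | none =>
    cases y with
    | none => rfl
    | some j =>
      have := h j
      simp at this
  | some i =>
    have := h i
    simp only [if_true] at this
    by_contra hne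
    rw [if_neg (fun hh => hne hh.symm)] at this
    norm_num at this

theorem b1P_inj (a b : ℕ) : Function.Injective (b1P a b) := by
  intro w w' h
  apply Prod.ext
  · apply b1_opt
    intro i
    rw [← b1P_left a b w i, ← b1P_left a b w' i, h]
  · apply b1_opt
    intro j
    rw [← b1P_right a b w j, ← b1P_right a b w' j, h]

open Classical in
theorem b1 (hB0 : B0) (hB1a : B1a) : B1 := by
  intro a b
  obtain ⟨c, _, hvol⟩ := hB0 (a + b)
  let Q : Option (Fin a) × Option (Fin b) → EuclideanSpace ℝ (Fin (a + b)) :=
    fun w => WithLp.toLp 2 (b1P a b w)
  have hQ : Function.Injective Q := by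
    intro w w' h
    apply b1P_inj a b
    exact WithLp.toLp_injective 2 h
  refine ⟨Finset.univ.image Q, c, ?_, ?_, ?_⟩
  · rw [Finset.card_image_of_injective _ hQ, Finset.card_univ, Fintype.card_prod, Fintype.card_option,
      Fintype.card_option, Fintype.card_fin, Fintype.card_fin]
  · have hmem : ∀ w, Q w ∈ affineSpan ℝ ((Finset.univ.image Q : Finset _) : Set (EuclideanSpace ℝ (Fin (a + b)))) := by
      intro w
      apply subset_affineSpan
      simp
    have h0 : Q (none, none) = 0 := by
      ext k
      show b1P a b (none, none) k = 0
      refine Fin.addCases (fun i => ?_) (fun j => ?_) k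
      · rw [b1P_left]; simp
      · rw [b1P_right]; simp
    have hz : (0 : EuclideanSpace ℝ (Fin (a + b))) ∈ affineSpan ℝ ((Finset.univ.image Q : Finset _) : Set (EuclideanSpace ℝ (Fin (a + b)))) := by
      rw [← h0]
      exact hmem _
    rw [← AffineSubspace.direction_eq_top_iff_of_nonempty ⟨0, hz⟩, eq_top_iff,
      ← (EuclideanSpace.basisFun (Fin (a + b)) ℝ).toBasis.span_eq, Submodule.span_le]
    rintro _ ⟨k, rfl⟩
    have hk : ∃ w, Q w = (EuclideanSpace.basisFun (Fin (a + b)) ℝ).toBasis k := by
      rw [OrthonormalBasis.coe_toBasis, EuclideanSpace.basisFun_apply]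
      refine Fin.addCases (fun i => ?_) (fun j => ?_) k
      · refine ⟨(some i, none), ?_⟩
        ext l
        show b1P a b (some i, none) l = _
        refine Fin.addCases (fun i' => ?_) (fun j' => ?_) l
        · rw [b1P_left]
          by_cases h : i' = i
          · subst h; simp
          · have h' : Fin.castAdd b i' ≠ Fin.castAdd b i := fun hh => h (Fin.castAdd_injective _ _ hh)
            rw [EuclideanSpace.single_apply, if_neg h', if_neg]
            intro hh
            exact h (Option.some_injective _ hh).symm
        · rw [b1P_right]
          have h' : Fin.natAdd a j' ≠ Fin.castAdd b i := by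
            intro hh
            have := congrArg Fin.val hh
            simp at this
            omega
          rw [EuclideanSpace.single_apply, if_neg h', if_neg]
          simp
      · refine ⟨(none, some j), ?_⟩
        ext l
        show b1P a b (none, some j) l = _
        refine Fin.addCases (fun i' => ?_) (fun j' => ?_) l
        · rw [b1P_left]
          have h' : Fin.castAdd b i' ≠ Fin.natAdd a j := by
            intro hh
            have := congrArg Fin.val hh
            simp at this
            omega
          rw [EuclideanSpace.single_apply, if_neg h', if_neg]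
          simp
        · rw [b1P_right]
          by_cases h : j' = j
          · subst h; simp
          · have h' : Fin.natAdd a j' ≠ Fin.natAdd a j := fun hh => h (Fin.natAdd_injective _ _ hh)
            rw [EuclideanSpace.single_apply, if_neg h', if_neg]
            intro hh
            exact h (Option.some_injective _ hh).symm
    obtain ⟨w, hw⟩ := hk
    have := AffineSubspace.vsub_mem_direction (hmem w) hz
    rw [vsub_eq_sub, sub_zero, hw] at this
    exact this
  · intro p hp
    have hp' : ∀ i, ∃ w, Q w = p i := by
      intro i
      have := hp i
      simpa using this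
    choose u hu using hp'
    have h1 := hvol p
    have h2 := hB1a a b u
    have h3 : (Matrix.of (fun i j : Fin (a + b) => p i.succ j - p 0 j)) =
        (Matrix.of (fun i j : Fin (a + b) => b1P a b (u i.succ) j - b1P a b (u 0) j)) := by
      ext i j
      rw [Matrix.of_apply, Matrix.of_apply, ← hu, ← hu]
    rw [h3] at h1
    rcases h2 with h2 | h2
    · left
      rw [h1]
      have : (Matrix.of (fun i j : Fin (a + b) => b1P a b (u i.succ) j - b1P a b (u 0) j)).det = 0 := h2
      rw [this, abs_zero, mul_zero]
    · right
      rw [h1]
      have : |(Matrix.of (fun i j : Fin (a + b) => b1P a b (u i.succ) j - b1P a b (u 0) j)).det| = 1 := h2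
      rw [this, mul_one]

end Pool.Agent.H441SX
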