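import Pool.Agent.H441SX.Defs

/-! Task B1a (helper143): determinants of the product of two simplices. -/

set_option autoImplicit false

namespace Pool.Agent.H441SX

/-- Matrices with at most one entry `1` in each of the two groups of columns. -/
theorem b1a_tu : ∀ (n : ℕ) (A : Matrix (Fin n) (Fin n) ℝ) (c : Fin n → Bool),
    (∀ i j, A i j = 0 ∨ A i j = 1) →
    (∀ i j j', A i j = 1 → A i j' = 1 → c j = c j' → j = j') → A.det = 0 ∨ |A.det| = 1 := by
  intro n
  induction n with
  | zero =>
    intro A c _ _
    right
    rw [Matrix.det_isEmpty, abs_one]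
  | succ n ih =>
    intro A c h01 hu
    by_cases hex : ∃ i j0, ∀ j, j ≠ j0 → A i j = 0
    · obtain ⟨i, j0, hj⟩ := hex
      have hdet : A.det = (-1) ^ ((i : ℕ) + (j0 : ℕ)) * A i j0 *
          (A.submatrix i.succAbove j0.succAbove).det := by
        rw [Matrix.det_succ_row A i, Fintype.sum_eq_single j0]
        intro j hne
        rw [hj j hne]
        ring
      have hsub := ih (A.submatrix i.succAbove j0.succAbove) (fun k => c (j0.succAbove k))
        (fun k l => h01 _ _) (fun k l l' h1 h2 h3 =>
          Fin.succAbove_right_injective (hu _ _ _ h1 h2 h3))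
      rcases h01 i j0 with h0 | h1
      · left
        rw [hdet, h0]
        ring
      · rcases hsub with h2 | h2
        · left
          rw [hdet, h2, mul_zero]
        · right
          rw [hdet, h1, mul_one, abs_mul, abs_pow, abs_neg, abs_one, one_pow, one_mul, h2]
    · left
      push Not at hex
      apply Matrix.exists_mulVec_eq_zero_iff.mp
      refine ⟨fun j => if c j then 1 else -1, ?_, ?_⟩
      · intro h
        have := congrFun h 0
        simp only [Pi.zero_apply] at this
        split_ifs at this <;> norm_num at this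
      · funext i
        obtain ⟨j1, _, hj1⟩ := hex i 0
        obtain ⟨j2, hne, hj2⟩ := hex i j1
        have h1 : A i j1 = 1 := (h01 i j1).resolve_left hj1
        have h2 : A i j2 = 1 := (h01 i j2).resolve_left hj2
        have hc : c j1 ≠ c j2 := fun h => hne (hu i j1 j2 h1 h2 h).symm
        simp only [Matrix.mulVec, dotProduct, Pi.zero_apply]
        rw [Fintype.sum_eq_add j1 j2 hne.symm]
        · rw [h1, h2]
          cases hc1 : c j1 <;> cases hc2 : c j2 <;> simp_all
        · rintro j ⟨hn1, hn2⟩
          rcases h01 i j with h0 | h3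
          · rw [h0, zero_mul]
          · exfalso
            have hc1 : c j ≠ c j1 := fun h => hn1 (hu i j j1 h3 h1 h)
            have hc2 : c j ≠ c j2 := fun h => hn2 (hu i j j2 h3 h2 h)
            cases h4 : c j <;> cases h5 : c j1 <;> cases h6 : c j2 <;> simp_all

theorem b1a : B1a := by
  intro a b u P
  classical
  set g : Fin (a + b + 1) → Option (Fin a) ⊕ Fin b := Fin.cons (Sum.inl none)
    (fun k => Sum.elim (fun i => Sum.inl (some i)) (fun j => Sum.inr j) (finSumFinEquiv.symm k))
    with hg
  have hg0 : g 0 = Sum.inl none := rfl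
  have hgs : ∀ k : Fin (a + b), g k.succ =
      Sum.elim (fun i => Sum.inl (some i)) (fun j => Sum.inr j) (finSumFinEquiv.symm k) :=
    fun k => rfl
  have key : ∀ z z' : Fin a ⊕ Fin b,
      (Sum.elim (fun i => Sum.inl (some i)) (fun j => Sum.inr j) z : Option (Fin a) ⊕ Fin b) =
        Sum.elim (fun i => Sum.inl (some i)) (fun j => Sum.inr j) z' → z = z' := by
    rintro (i | i) (i' | i') h
    · simp only [Sum.elim_inl, Sum.inl.injEq, Option.some.injEq] at h
      rw [h]
    · simp at h
    · simp at h
    · simp only [Sum.elim_inr, Sum.inr.injEq] at h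
      rw [h]
  have keyn : ∀ z : Fin a ⊕ Fin b,
      (Sum.elim (fun i => Sum.inl (some i)) (fun j => Sum.inr j) z : Option (Fin a) ⊕ Fin b) ≠
        Sum.inl none := by
    rintro (i | i) h
    · simp at h
    · simp at h
  have hginj : Function.Injective g := by
    intro j j' h
    induction j using Fin.cases with
    | zero =>
      induction j' using Fin.cases with
      | zero => rfl
      | succ k' =>
        rw [hg0, hgs] at h
        exact absurd h.symm (keyn _)
    | succ k =>
      induction j' using Fin.cases with
      | zero =>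
        rw [hg0, hgs] at h
        exact absurd h (keyn _)
      | succ k' =>
        rw [hgs, hgs] at h
        rw [finSumFinEquiv.symm.injective (key _ _ h)]
  set w : Option (Fin a) × Option (Fin b) → Option (Fin a) ⊕ Fin b → ℝ := fun v s =>
    Sum.elim (fun x => if v.1 = x then (1 : ℝ) else 0) (fun y => if v.2 = some y then (1 : ℝ) else 0) s
    with hw
  have hP : ∀ v k, P v k = w v (g k.succ) := by
    intro v k
    simp only [P, hw, hgs]
    rcases finSumFinEquiv.symm k with i | i <;> rfl
  set N : Matrix (Fin (a + b + 1)) (Fin (a + b + 1)) ℝ := Matrix.of (fun i j => w (u i) (g j)) with hN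
  have hdetN : N.det = 0 ∨ |N.det| = 1 := by
    apply b1a_tu _ N (fun j => (g j).isLeft)
    · intro i j
      simp only [hN, Matrix.of_apply, hw]
      rcases g j with x | x
      · simp only [Sum.elim_inl]
        split_ifs <;> simp
      · simp only [Sum.elim_inr]
        split_ifs <;> simp
    · intro i j j' h1 h2 hc
      apply hginj
      simp only [hN, Matrix.of_apply, hw] at h1 h2
      rcases hj : g j with x | x <;> rcases hj' : g j' with x' | x' <;>
        simp [hj, hj'] at h1 h2 hc ⊢
      · rw [← h1, ← h2]
      · rw [h1] at h2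
        exact Option.some.inj h2
  set M : Matrix (Fin (a + b + 1)) (Fin (a + b + 1)) ℝ := N.updateCol 0 (fun _ => 1) with hM
  have hMN : M.det = N.det := by
    have h1 := Matrix.det_updateCol_sum N 0 (fun j => if (g j).isLeft then (1 : ℝ) else 0)
    have h2 : (fun k => ∑ i, (if (g i).isLeft then (1 : ℝ) else 0) • N k i) = fun _ => 1 := by
      funext i
      rw [Fin.sum_univ_succ, ← finSumFinEquiv.sum_comp, Fintype.sum_sum_type]
      simp only [hN, Matrix.of_apply, hg0, hgs, Equiv.symm_apply_apply, Sum.elim_inl, Sum.elim_inr,
        Sum.isLeft_inl, Sum.isLeft_inr, hw, if_true, smul_eq_mul, one_mul]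
      rcases h3 : (u i).1 with _ | x
      · simp
      · simp
    rw [h2] at h1
    rw [hM, h1, hg0]
    simp
  have hDM : (Matrix.of (fun i j : Fin (a + b) => P (u i.succ) j - P (u 0) j)).det = M.det := by
    have hM0 : ∀ i, M i 0 = 1 := fun i => by rw [hM, Matrix.updateCol_self]
    have hMs : ∀ i (k : Fin (a + b)), M i k.succ = P (u i) k := by
      intro i k
      rw [hM, Matrix.updateCol_ne (Fin.succ_ne_zero k), hP]
      rfl
    set M' : Matrix (Fin (a + b + 1)) (Fin (a + b + 1)) ℝ :=
      Matrix.of (fun i j => M i j + (if i = 0 then (0 : ℝ) else -1) * M 0 j) with hM'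
    have h1 : M'.det = M.det :=
      Matrix.det_eq_of_forall_row_eq_smul_add_const (fun i => if i = 0 then (0 : ℝ) else -1) 0
        (by simp) (fun i j => rfl)
    rw [← h1, Matrix.det_succ_column_zero, Fintype.sum_eq_single 0]
    · have h2 : M' 0 0 = 1 := by simp [hM', hM0]
      rw [h2]
      simp only [Fin.val_zero, pow_zero, one_mul]
      congr 1
      ext i j
      simp only [Matrix.submatrix_apply, Matrix.of_apply, hM', Fin.succAbove_zero, hMs]
      rw [if_neg (Fin.succ_ne_zero i)]
      ring
    · intro i hi
      have h2 : M' i 0 = 0 := by simp [hM', hM0, hi]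
      rw [h2]
      ring
  rw [hDM, hMN]
  exact hdetN

end Pool.Agent.H441SX
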