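import Pool.Agent.H441SX.Defs

/-! Task B2 (helper132): all sizes up to `(m + 2) ^ 2 / 4`. -/

set_option autoImplicit false
open MeasureTheory

namespace Pool.Agent.H441SX

theorem b2 (hB1 : B1) : B2 := by
  intro m n hmn hn
  obtain ⟨a, b, hab, hab2⟩ : ∃ a b : ℕ, a + b = m ∧ n ≤ (a + 1) * (b + 1) := by
    rcases Nat.even_or_odd' m with ⟨k, hk | hk⟩
    · refine ⟨k, k, by omega, ?_⟩
      subst hk
      nlinarith
    · refine ⟨k, k + 1, by omega, ?_⟩
      subst hk
      have h1 : (2 * k + 1 + 2) ^ 2 = 4 * ((k + 1) * (k + 1 + 1)) + 1 := by ring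
      rw [h1] at hn
      omega
  subst hab
  obtain ⟨S, v, hcard, hspan, hv⟩ := hB1 a b
  obtain ⟨t, htS, htspan, htind⟩ :=
    exists_affineIndependent ℝ (EuclideanSpace ℝ (Fin (a + b))) (S : Set (EuclideanSpace ℝ (Fin (a + b))))
  have htfin : t.Finite := S.finite_toSet.subset htS
  have : Fintype t := htfin.fintype
  classical
  have hcardt : htfin.toFinset.card ≤ a + b + 1 := by
    have h1 := htind.card_le_finrank_succ
    have h2 := Submodule.finrank_le (vectorSpan ℝ (Set.range ((↑) : t → EuclideanSpace ℝ (Fin (a + b)))))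
    have h3 : Module.finrank ℝ (EuclideanSpace ℝ (Fin (a + b))) = a + b := by simp
    rw [← Nat.card_eq_fintype_card] at h1
    have h4 : htfin.toFinset.card = Nat.card t := by
      rw [Nat.card_coe_set_eq, Set.ncard_eq_toFinset_card _ htfin]
    have h5 : Nat.card t = Nat.card {x // x ∈ t} := rfl
    omega
  obtain ⟨u, hu1, hu2, hu3⟩ := Finset.exists_subsuperset_card_eq
    (s := htfin.toFinset) (t := S) (n := n) (by
      intro x hx
      rw [Set.Finite.mem_toFinset] at hx
      exact htS hx) (hcardt.trans hmn) (by rw [hcard]; exact hab2)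
  refine ⟨u, v, hu3, ?_, fun p hp => hv p (fun i => hu2 (hp i))⟩
  rw [eq_top_iff, ← hspan, ← htspan]
  apply affineSpan_mono
  intro x hx
  exact hu1 ((Set.Finite.mem_toFinset htfin).2 hx)

end Pool.Agent.H441SX
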