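import Pool.Agent.H441SX.B1
import Pool.Agent.H441SX.B1a
import Pool.Agent.H441SX.B0
import Pool.Agent.H441SX.Fin

set_option autoImplicit false
open MeasureTheory

namespace Pool.Agent.H441SX

open Classical in
theorem b3_span (a b : ℕ) : affineSpan ℝ ((Finset.univ.image (fun w : Option (Fin a) × Option (Fin b) =>
    (WithLp.toLp 2 (b1P a b w) : EuclideanSpace ℝ (Fin (a + b)))) : Finset _) :
      Set (EuclideanSpace ℝ (Fin (a + b)))) = ⊤ := by
  let Q : Option (Fin a) × Option (Fin b) → EuclideanSpace ℝ (Fin (a + b)) :=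
    fun w => WithLp.toLp 2 (b1P a b w)
  change affineSpan ℝ ((Finset.univ.image Q : Finset _) : Set (EuclideanSpace ℝ (Fin (a + b)))) = ⊤
  have hmem : ∀ w, Q w ∈ affineSpan ℝ ((Finset.univ.image Q : Finset _) : Set (EuclideanSpace ℝ (Fin (a + b)))) := by
    intro w
    apply subset_affineSpan
    simp
  have h0 : Q (none, none) = 0 := by
    ext k
    show b1P a b (none, none) k = 0
    refine Fin.addCases (fun i => ?_) (fun j => ?_) k
    · rw [b1P_left]; simp
    · rw [b1P_right]; simp
  have hz : (0 : EuclideanSpace ℝ (Fin (a + b))) ∈ affineSpan ℝ ((Finset.univ.image Q : Finset _) : Set (EuclideanSpace ℝ (Fin (a + b)))) := by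
    rw [← h0]
    exact hmem _
  rw [← AffineSubspace.direction_eq_top_iff_of_nonempty ⟨0, hz⟩, eq_top_iff,
    ← (EuclideanSpace.basisFun (Fin (a + b)) ℝ).toBasis.span_eq, Submodule.span_le]
  rintro _ ⟨k, rfl⟩
  have hk : ∃ w, Q w = (EuclideanSpace.basisFun (Fin (a + b)) ℝ).toBasis k := by
    rw [OrthonormalBasis.coe_toBasis, EuclideanSpace.basisFun_apply]
    refine Fin.addCases (fun i => ?_) (fun j => ?_) k
    · refine ⟨(some i, none), ?_⟩
      ext l
      show b1P a b (some i, none) l = _
      refine Fin.addCases (fun i' => ?_) (fun j' => ?_) l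
      · rw [b1P_left]
        by_cases h : i' = i
        · subst h; simp
        · have h' : Fin.castAdd b i' ≠ Fin.castAdd b i := fun hh => h (Fin.castAdd_injective _ _ hh)
          rw [EuclideanSpace.single_apply, if_neg h', if_neg]
          intro hh
          exact h (Option.some_injective _ hh).symm
      · rw [b1P_right]
        have h' : Fin.natAdd a j' ≠ Fin.castAdd b i := by
          intro hh
          have := congrArg Fin.val hh
          simp at this
          omega
        rw [EuclideanSpace.single_apply, if_neg h', if_neg]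
        simp
    · refine ⟨(none, some j), ?_⟩
      ext l
      show b1P a b (none, some j) l = _
      refine Fin.addCases (fun i' => ?_) (fun j' => ?_) l
      · rw [b1P_left]
        have h' : Fin.castAdd b i' ≠ Fin.natAdd a j := by
          intro hh
          have := congrArg Fin.val hh
          simp at this
          omega
        rw [EuclideanSpace.single_apply, if_neg h', if_neg]
        simp
      · rw [b1P_right]
        by_cases h : j' = j
        · subst h; simp
        · have h' : Fin.natAdd a j' ≠ Fin.natAdd a j := fun hh => h (Fin.natAdd_injective _ _ hh)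
          rw [EuclideanSpace.single_apply, if_neg h', if_neg]
          intro hh
          exact h (Option.some_injective _ hh).symm
  obtain ⟨w, hw⟩ := hk
  have := AffineSubspace.vsub_mem_direction (hmem w) hz
  rw [vsub_eq_sub, sub_zero, hw] at this
  exact this

theorem b3_updsum {n : ℕ} (M : Matrix (Fin n) (Fin n) ℝ) (j0 : Fin n) {k : ℕ} (f : Fin k → Fin n → ℝ)
    (s : Finset (Fin k)) :
    (M.updateCol j0 (∑ i ∈ s, f i)).det = ∑ i ∈ s, (M.updateCol j0 (f i)).det := by
  classical
  induction s using Finset.induction_on with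
  | empty =>
    rw [Finset.sum_empty, Finset.sum_empty]
    exact Matrix.det_eq_zero_of_column_eq_zero j0 (fun i => by simp)
  | insert i s hi ih =>
    rw [Finset.sum_insert hi, Finset.sum_insert hi, Matrix.det_updateCol_add, ih]

/-- base point -/
def bas (b k : ℕ) : Option (Fin b) ⊕ Fin k → Option (Fin (b + 1)) :=
  Sum.elim (fun y => y.map Fin.succ) (fun _ => none)

/-- height -/
def hgt (b k : ℕ) : Option (Fin b) ⊕ Fin k → ℝ := Sum.elim (fun _ => 0) (fun h => (h : ℝ) + 1)

/-- thresholds -/
def thr (b k : ℕ) (s : Fin k) : Option (Fin b) ⊕ Fin k → Option (Fin (b + 1)) :=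
  Sum.elim (fun y => y.map Fin.succ) (fun h => if s ≤ h then some 0 else none)

/-- the points -/
noncomputable def b3P (a b k : ℕ) (w : Option (Fin a) × (Option (Fin b) ⊕ Fin k)) (j : Fin (a + (b + 1))) : ℝ :=
  b1P a (b + 1) (w.1, bas b k w.2) j + hgt b k w.2 * (if j = Fin.natAdd a 0 then 1 else 0)

theorem hgt_eq (b k : ℕ) (y : Option (Fin b) ⊕ Fin k) :
    hgt b k y = ∑ s : Fin k, (if thr b k s y = some 0 then (1 : ℝ) else 0) := by
  rcases y with y | h
  · show (0 : ℝ) = ∑ s : Fin k, (if thr b k s (Sum.inl y) = some 0 then (1 : ℝ) else 0)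
    symm
    apply Finset.sum_eq_zero
    intro s _
    apply if_neg
    show ¬ (y.map Fin.succ = some 0)
    cases y with
    | none => simp
    | some j => simp [Fin.succ_ne_zero]
  · show (h : ℝ) + 1 = ∑ s : Fin k, (if thr b k s (Sum.inr h) = some 0 then (1 : ℝ) else 0)
    have h1 : ∀ s : Fin k, (if thr b k s (Sum.inr h) = some 0 then (1 : ℝ) else 0) =
        if s ≤ h then 1 else 0 := by
      intro s
      by_cases hs : s ≤ h
      · rw [if_pos hs]
        apply if_pos
        show (if s ≤ h then some (0 : Fin (b + 1)) else none) = some 0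
        rw [if_pos hs]
      · rw [if_neg hs]
        apply if_neg
        show ¬ ((if s ≤ h then some (0 : Fin (b + 1)) else none) = some 0)
        rw [if_neg hs]
        simp
    rw [Finset.sum_congr rfl (fun s _ => h1 s), Finset.sum_ite, Finset.sum_const_zero, add_zero,
      Finset.sum_const, nsmul_eq_mul, mul_one]
    have h2 : (Finset.univ.filter (fun s : Fin k => s ≤ h)) = Finset.Iic h := by
      ext s; simp
    rw [h2, Fin.card_Iic]
    push_cast
    ring

theorem b3_base (a b k : ℕ) (s : Fin k) (w : Option (Fin a) × (Option (Fin b) ⊕ Fin k))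
    (j : Fin (a + (b + 1))) (hj : j ≠ Fin.natAdd a 0) :
    b3P a b k w j = b1P a (b + 1) (w.1, thr b k s w.2) j := by
  unfold b3P
  rw [if_neg hj, mul_zero, add_zero]
  revert hj
  refine Fin.addCases (fun i hj => ?_) (fun i hj => ?_) j
  · rw [b1P_left, b1P_left]
  · rw [b1P_right, b1P_right]
    have hi : i ≠ 0 := fun h => hj (by rw [h])
    rcases w with ⟨x, y | h⟩
    · rfl
    · simp only [bas, thr, Sum.elim_inr]
      by_cases hs : s ≤ h
      · simp [hs, hi.symm]
      · simp [hs]

theorem b3_top (a b k : ℕ) (w : Option (Fin a) × (Option (Fin b) ⊕ Fin k)) :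
    b3P a b k w (Fin.natAdd a 0) =
      ∑ s : Fin k, b1P a (b + 1) (w.1, thr b k s w.2) (Fin.natAdd a 0) := by
  unfold b3P
  rw [b1P_right, if_pos rfl, mul_one, hgt_eq]
  simp only [b1P_right]
  rw [if_neg, zero_add]
  rcases w with ⟨x, y | h⟩
  · cases y with
    | none => simp [bas]
    | some j => simp [bas, Fin.succ_ne_zero]
  · simp [bas]

theorem b3_det (a b k : ℕ) (u : Fin (a + (b + 1) + 1) → Option (Fin a) × (Option (Fin b) ⊕ Fin k)) :
    (∃ z : ℤ, (Matrix.of (fun i j : Fin (a + (b + 1)) => b3P a b k (u i.succ) j - b3P a b k (u 0) j)).det = z) ∧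
    |(Matrix.of (fun i j : Fin (a + (b + 1)) => b3P a b k (u i.succ) j - b3P a b k (u 0) j)).det| ≤ k := by
  let N : Fin k → Matrix (Fin (a + (b + 1))) (Fin (a + (b + 1))) ℝ := fun s =>
    Matrix.of (fun i j : Fin (a + (b + 1)) => b1P a (b + 1) ((u i.succ).1, thr b k s (u i.succ).2) j -
      b1P a (b + 1) ((u 0).1, thr b k s (u 0).2) j)
  have hN : ∀ s, (N s).det = 0 ∨ |(N s).det| = 1 := fun s =>
    b1a a (b + 1) (fun i => ((u i).1, thr b k s (u i).2))
  set M := Matrix.of (fun i j : Fin (a + (b + 1)) => b3P a b k (u i.succ) j - b3P a b k (u 0) j) with hM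
  have h1 : M = M.updateCol (Fin.natAdd a 0) (∑ s : Fin k, fun i => N s i (Fin.natAdd a 0)) := by
    ext i j
    by_cases hj : j = Fin.natAdd a 0
    · subst hj
      rw [Matrix.updateCol_self, Finset.sum_apply]
      simp only [hM, N, Matrix.of_apply]
      rw [b3_top, b3_top, ← Finset.sum_sub_distrib]
    · rw [Matrix.updateCol_ne hj]
  have h2 : ∀ s, M.updateCol (Fin.natAdd a 0) (fun i => N s i (Fin.natAdd a 0)) = N s := by
    intro s
    ext i j
    by_cases hj : j = Fin.natAdd a 0
    · subst hj
      rw [Matrix.updateCol_self]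
    · rw [Matrix.updateCol_ne hj]
      simp only [hM, N, Matrix.of_apply]
      rw [b3_base a b k s _ j hj, b3_base a b k s _ j hj]
  have h3 : M.det = ∑ s : Fin k, (N s).det := by
    rw [h1, b3_updsum]
    exact Finset.sum_congr rfl (fun s _ => by rw [h2])
  have h4 : ∀ s, ∃ z : ℤ, (N s).det = z := by
    intro s
    rcases hN s with h | h
    · exact ⟨0, by rw [h]; simp⟩
    · rcases eq_or_eq_neg_of_abs_eq h with h | h
      · exact ⟨1, by rw [h]; simp⟩
      · exact ⟨-1, by rw [h]; simp⟩
  have h5 : ∀ s, |(N s).det| ≤ 1 := by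
    intro s
    rcases hN s with h | h
    · rw [h]; simp
    · rw [h]
  constructor
  · choose z hz using h4
    refine ⟨∑ s, z s, ?_⟩
    rw [h3]
    push_cast
    exact Finset.sum_congr rfl (fun s _ => hz s)
  · rw [h3]
    refine (Finset.abs_sum_le_sum_abs _ _).trans ?_
    refine (Finset.sum_le_sum (fun s _ => h5 s)).trans ?_
    simp

end Pool.Agent.H441SX
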