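import Pool.Agent.H441SX.B3
import Pool.Agent.H441SX.A0

set_option autoImplicit false
open MeasureTheory

namespace Pool.Agent.H441SX

theorem b3_inj (a b k : ℕ) : Function.Injective (b3P a b k) := by
  have hl : ∀ w i, b3P a b k w (Fin.castAdd (b + 1) i) = if w.1 = some i then (1 : ℝ) else 0 := by
    intro w i
    unfold b3P
    rw [b1P_left, if_neg (c := Fin.castAdd (b + 1) i = Fin.natAdd a 0), mul_zero, add_zero]
    intro hh
    have := congrArg Fin.val hh
    simp at this
    omega
  have hr : ∀ w (j : Fin b), b3P a b k w (Fin.natAdd a j.succ) =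
      if bas b k w.2 = some j.succ then (1 : ℝ) else 0 := by
    intro w j
    unfold b3P
    rw [b1P_right, if_neg (c := Fin.natAdd a j.succ = Fin.natAdd a 0), mul_zero, add_zero]
    intro hh
    have := congrArg Fin.val hh
    simp at this
  have h0 : ∀ w, b3P a b k w (Fin.natAdd a 0) = hgt b k w.2 := by
    intro w
    unfold b3P
    rw [b1P_right, if_pos rfl, mul_one]
    have : ¬ bas b k w.2 = some 0 := by
      rcases w with ⟨x, y | h⟩
      · cases y with
        | none => simp [bas]
        | some j => simp [bas, Fin.succ_ne_zero]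
      · simp [bas]
    rw [if_neg this, zero_add]
  intro w w' h
  have e1 : w.1 = w'.1 := by
    apply b1_opt
    intro i
    rw [← hl w i, ← hl w' i, h]
  have e2 : hgt b k w.2 = hgt b k w'.2 := by rw [← h0, ← h0, h]
  have e3 : ∀ j : Fin b, (if bas b k w.2 = some j.succ then (1 : ℝ) else 0) =
      if bas b k w'.2 = some j.succ then (1 : ℝ) else 0 := by
    intro j
    rw [← hr, ← hr, h]
  apply Prod.ext e1
  rcases w with ⟨x, y | t⟩ <;> rcases w' with ⟨x', y' | t'⟩
  · have : y = y' := by
      apply b1_opt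
      intro i
      have h5 := e3 i
      have h6 : ∀ z : Option (Fin b), (bas b k (Sum.inl z) = some i.succ) ↔ z = some i := by
        intro z
        cases z with
        | none => simp [bas]
        | some j => simp [bas]
      simp only [h6] at h5
      exact h5
    rw [this]
  · exfalso
    have : (0 : ℝ) = (t' : ℝ) + 1 := e2
    have h7 : (0 : ℝ) ≤ ((t' : ℕ) : ℝ) := Nat.cast_nonneg _
    linarith
  · exfalso
    have : (t : ℝ) + 1 = 0 := e2
    have h7 : (0 : ℝ) ≤ ((t : ℕ) : ℝ) := Nat.cast_nonneg _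
    linarith
  · have h8 : (t : ℝ) + 1 = (t' : ℝ) + 1 := e2
    have h9 : ((t : ℕ) : ℝ) = ((t' : ℕ) : ℝ) := by linarith
    have h10 : (t : ℕ) = (t' : ℕ) := by exact_mod_cast h9
    have : t = t' := Fin.ext h10
    rw [this]

open Classical in
theorem b4 (a b k n : ℕ) (hk : 1 ≤ k) (hn1 : a + (b + 1) + 1 ≤ n) (hn2 : n ≤ (a + 1) * (b + 1 + k)) :
    fmn (a + (b + 1)) n ≤ k := by
  have hA0 : A0 := a0 b0
  obtain ⟨c, hc, hvol⟩ := b0 (a + (b + 1))
  let R : Option (Fin a) × (Option (Fin b) ⊕ Fin k) → EuclideanSpace ℝ (Fin (a + (b + 1))) :=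
    fun w => WithLp.toLp 2 (b3P a b k w)
  have hR : Function.Injective R := by
    intro w w' h
    apply b3_inj a b k
    exact WithLp.toLp_injective 2 h
  obtain ⟨S, hSdef⟩ : ∃ S : Finset (EuclideanSpace ℝ (Fin (a + (b + 1)))), S = Finset.univ.image R := ⟨_, rfl⟩
  have hcard : S.card = (a + 1) * (b + 1 + k) := by
    rw [hSdef, Finset.card_image_of_injective _ hR, Finset.card_univ, Fintype.card_prod, Fintype.card_option,
      Fintype.card_sum, Fintype.card_option, Fintype.card_fin, Fintype.card_fin, Fintype.card_fin]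
  have hspan : affineSpan ℝ (S : Set (EuclideanSpace ℝ (Fin (a + (b + 1))))) = ⊤ := by
    rw [eq_top_iff, ← b3_span a (b + 1)]
    apply affineSpan_mono
    intro x hx
    rw [Finset.mem_coe, Finset.mem_image] at hx
    obtain ⟨⟨x1, x2⟩, -, rfl⟩ := hx
    rw [hSdef, Finset.mem_coe, Finset.mem_image]
    have hex : ∃ y : Option (Fin b) ⊕ Fin k, b3P a b k (x1, y) = b1P a (b + 1) (x1, x2) := by
      have hz : ∀ z : Option (Fin b), b3P a b k (x1, Sum.inl z) = b1P a (b + 1) (x1, z.map Fin.succ) := by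
        intro z
        funext j
        unfold b3P
        have : hgt b k (Sum.inl z) = 0 := rfl
        show b1P a (b + 1) (x1, z.map Fin.succ) j + hgt b k (Sum.inl z) * _ = _
        rw [this, zero_mul, add_zero]
      cases x2 with
      | none => exact ⟨Sum.inl none, hz none⟩
      | some j =>
        refine Fin.cases ?_ (fun j' => ?_) j
        · refine ⟨Sum.inr ⟨0, hk⟩, ?_⟩
          funext l
          unfold b3P
          show b1P a (b + 1) (x1, none) l + ((((⟨0, hk⟩ : Fin k) : ℕ) : ℝ) + 1) * _ = _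
          refine Fin.addCases (fun i => ?_) (fun i => ?_) l
          · rw [b1P_left, b1P_left, if_neg (c := Fin.castAdd (b + 1) i = Fin.natAdd a 0), mul_zero, add_zero]
            intro hh
            have := congrArg Fin.val hh
            simp at this
            omega
          · rw [b1P_right, b1P_right]
            by_cases hi : i = 0
            · subst hi; simp
            · have h1 : Fin.natAdd a i ≠ Fin.natAdd a 0 := fun hh => hi (Fin.natAdd_injective _ _ hh)
              rw [if_neg h1]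
              simp [Ne.symm hi]
        · exact ⟨Sum.inl (some j'), hz (some j')⟩
    obtain ⟨y, hy⟩ := hex
    exact ⟨(x1, y), Finset.mem_univ _, by show WithLp.toLp 2 (b3P a b k (x1, y)) = _; rw [hy]⟩
  have hv : ∀ p : Fin (a + (b + 1) + 1) → EuclideanSpace ℝ (Fin (a + (b + 1))), (∀ i, p i ∈ S) →
      sv p ≤ k * c ∧ (0 < sv p → c ≤ sv p) := by
    intro p hp
    have hp' : ∀ i, ∃ w, R w = p i := by
      intro i
      have := hp i
      rw [hSdef] at this
      simpa using this
    choose u hu using hp'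
    have h1 := hvol p
    have h3 : (Matrix.of (fun i j : Fin (a + (b + 1)) => p i.succ j - p 0 j)) =
        (Matrix.of (fun i j : Fin (a + (b + 1)) => b3P a b k (u i.succ) j - b3P a b k (u 0) j)) := by
      ext i j
      rw [Matrix.of_apply, Matrix.of_apply, ← hu, ← hu]
    rw [h3] at h1
    obtain ⟨⟨z, hz⟩, h5⟩ := b3_det a b k u
    rw [h1]
    constructor
    · rw [mul_comm]; exact mul_le_mul_of_nonneg_right h5 hc.le
    · intro h6
      have h7 : (Matrix.of (fun i j : Fin (a + (b + 1)) => b3P a b k (u i.succ) j - b3P a b k (u 0) j)).det ≠ 0 := by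
        intro h8
        rw [h8, abs_zero, mul_zero] at h6
        exact lt_irrefl _ h6
      rw [hz] at h7 ⊢
      have h9 : z ≠ 0 := by exact_mod_cast h7
      have h10 : (1 : ℝ) ≤ |(z : ℝ)| := by exact_mod_cast Int.one_le_abs h9
      exact le_mul_of_one_le_right hc.le h10
  -- the subset
  obtain ⟨t, htS, htspan, htind⟩ :=
    exists_affineIndependent ℝ (EuclideanSpace ℝ (Fin (a + (b + 1)))) (S : Set (EuclideanSpace ℝ (Fin (a + (b + 1)))))
  have htfin : t.Finite := S.finite_toSet.subset htS
  have : Fintype t := htfin.fintype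
  have hcardt : htfin.toFinset.card ≤ a + (b + 1) + 1 := by
    have h1 := htind.card_le_finrank_succ
    have h2 := Submodule.finrank_le (vectorSpan ℝ (Set.range ((↑) : t → EuclideanSpace ℝ (Fin (a + (b + 1))))))
    have h3 : Module.finrank ℝ (EuclideanSpace ℝ (Fin (a + (b + 1)))) = a + (b + 1) := by simp
    rw [← Nat.card_eq_fintype_card] at h1
    have h4 : htfin.toFinset.card = Nat.card t := by
      rw [Nat.card_coe_set_eq, Set.ncard_eq_toFinset_card _ htfin]
    have h5 : Nat.card t = Nat.card {x // x ∈ t} := rfl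
    omega
  obtain ⟨u, hu1, hu2, hu3⟩ := Finset.exists_subsuperset_card_eq
    (s := htfin.toFinset) (t := S) (n := n) (by
      intro x hx
      rw [Set.Finite.mem_toFinset] at hx
      exact htS hx) (hcardt.trans hn1) (by rw [hcard]; exact hn2)
  have huspan : affineSpan ℝ (u : Set (EuclideanSpace ℝ (Fin (a + (b + 1))))) = ⊤ := by
    rw [eq_top_iff, ← hspan, ← htspan]
    apply affineSpan_mono
    intro x hx
    exact hu1 ((Set.Finite.mem_toFinset htfin).2 hx)
  have hle : fmn (a + (b + 1)) n ≤ bigT u / smallT u := by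
    refine csInf_le ⟨0, ?_⟩ ⟨u, hu3, huspan, rfl⟩
    rintro r ⟨S', _, hS', rfl⟩
    obtain ⟨h0, p, hp, hpe⟩ := smallT_mem hA0 S' hS'
    have h1 := bigT_spec S' p hp
    rw [← hpe] at h1
    exact div_nonneg (h0.le.trans h1) h0.le
  refine hle.trans ?_
  obtain ⟨h0, p, hp, hpe⟩ := smallT_mem hA0 u huspan
  have h1 : c ≤ smallT u := by
    rw [hpe] at h0 ⊢
    exact (hv p (fun i => hu2 (hp i))).2 h0
  have h2 : bigT u ≤ k * c := by
    refine csSup_le ⟨_, p, hp, rfl⟩ ?_
    rintro w ⟨q, hq, rfl⟩
    exact (hv q (fun i => hu2 (hq i))).1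
  rw [div_le_iff₀ h0]
  exact h2.trans (mul_le_mul_of_nonneg_left h1 (Nat.cast_nonneg _))

/-- the upper bound for `n ≤ (m + k + 1) ^ 2 / 4` -/
theorem b5 (m n k : ℕ) (hk : 1 ≤ k) (hkm : k ≤ m) (hn1 : m + 1 ≤ n) (hn2 : 4 * n ≤ (m + k + 1) ^ 2) :
    fmn m n ≤ k := by
  rcases Nat.even_or_odd' (m + k + 1) with ⟨s, hs | hs⟩
  · have h1 : n ≤ s * s := by
      rw [hs] at hn2
      nlinarith
    obtain ⟨a, ha⟩ : ∃ a, s = a + 1 := ⟨s - 1, by omega⟩
    obtain ⟨b, hb⟩ : ∃ b, m = a + (b + 1) := ⟨m - a - 1, by omega⟩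
    subst hb
    refine b4 a b k n hk (by omega) ?_
    have h2 : b + 1 + k = s := by omega
    rw [h2, ← ha]
    exact h1
  · have h1 : n ≤ s * (s + 1) := by
      rw [hs] at hn2
      have h2 : (2 * s + 1) ^ 2 = 4 * (s * (s + 1)) + 1 := by ring
      rw [h2] at hn2
      omega
    obtain ⟨a, ha⟩ : ∃ a, s = a + 1 := ⟨s - 1, by omega⟩
    obtain ⟨b, hb⟩ : ∃ b, m = a + (b + 1) := ⟨m - a - 1, by omega⟩
    subst hb
    refine b4 a b k n hk (by omega) ?_
    have h2 : b + 1 + k = s + 1 := by omega
    rw [h2, ← ha]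
    exact h1

end Pool.Agent.H441SX
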