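import Mathlib

/-! Definitions and task statements for MP_e51904_co (helper441): ratio of the largest to the smallest
positive volume of the simplices spanned by a finite point set. -/

set_option autoImplicit false
open MeasureTheory

namespace Pool.Agent.H441SX

/-- the volume of the simplex with vertices `p 0, ..., p m` -/
noncomputable def sv {m : ℕ} (p : Fin (m + 1) → EuclideanSpace ℝ (Fin m)) : ℝ :=
  volume.real (convexHull ℝ (Set.range p))

/-- B0: the volume is a positive constant times the absolute value of the determinant. -/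
def B0 : Prop := ∀ m : ℕ, ∃ c : ℝ, 0 < c ∧ ∀ p : Fin (m + 1) → EuclideanSpace ℝ (Fin m),
  sv p = c * |(Matrix.of (fun i j : Fin m => p i.succ j - p 0 j)).det|

/-- A0: positive volume means affinely independent. -/
def A0 : Prop := ∀ (m : ℕ) (p : Fin (m + 1) → EuclideanSpace ℝ (Fin m)),
  0 < sv p ↔ AffineIndependent ℝ p

/-- A1: the region where all barycentric coordinates are at most one. -/
def A1 : Prop := ∀ (m : ℕ) (b : AffineBasis (Fin (m + 1)) ℝ (EuclideanSpace ℝ (Fin m))), 1 ≤ m →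
  Bornology.IsBounded {x | ∀ i, b.coord i x ≤ 1} ∧
  volume.real {x | ∀ i, b.coord i x ≤ 1} ≤ (m : ℝ) ^ m * sv b

/-- A2: replacing a vertex. -/
def A2 : Prop := ∀ (m : ℕ) (b : AffineBasis (Fin (m + 1)) ℝ (EuclideanSpace ℝ (Fin m)))
  (x : EuclideanSpace ℝ (Fin m)) (i : Fin (m + 1)),
  sv (Function.update b i x) = |b.coord i x| * sv b

/-- A3: the convex hull has volume at most `m^m` times the largest simplex. -/
def A3 : Prop := ∀ (m : ℕ) (S : Finset (EuclideanSpace ℝ (Fin m))) (T : ℝ), 1 ≤ m →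
  affineSpan ℝ (S : Set (EuclideanSpace ℝ (Fin m))) = ⊤ →
  (∀ p : Fin (m + 1) → EuclideanSpace ℝ (Fin m), (∀ i, p i ∈ S) → sv p ≤ T) →
  volume.real (convexHull ℝ (S : Set (EuclideanSpace ℝ (Fin m)))) ≤ (m : ℝ) ^ m * T

open Classical in
/-- A4: a vertex of the convex hull whose removal leaves a spanning set. -/
def A4 : Prop := ∀ (m : ℕ) (S : Finset (EuclideanSpace ℝ (Fin m))), m + 2 ≤ S.card →
  affineSpan ℝ (S : Set (EuclideanSpace ℝ (Fin m))) = ⊤ →
  ∃ x ∈ S, x ∉ convexHull ℝ ((S.erase x : Finset _) : Set (EuclideanSpace ℝ (Fin m))) ∧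
    affineSpan ℝ ((S.erase x : Finset _) : Set (EuclideanSpace ℝ (Fin m))) = ⊤

/-- A5a: a facet that separates an outer point: an affine function, nonpositive on `S`, equal to `1` at
`x`, whose zeros in `S` contain `m` affinely independent points. -/
def A5a : Prop := ∀ (m : ℕ) (S : Finset (EuclideanSpace ℝ (Fin m))) (x : EuclideanSpace ℝ (Fin m)),
  affineSpan ℝ (S : Set (EuclideanSpace ℝ (Fin m))) = ⊤ →
  x ∉ convexHull ℝ (S : Set (EuclideanSpace ℝ (Fin m))) →
  ∃ (g : EuclideanSpace ℝ (Fin m) →ᵃ[ℝ] ℝ) (q : Fin m → EuclideanSpace ℝ (Fin m)),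
    g x = 1 ∧ (∀ s ∈ S, g s ≤ 0) ∧ (∀ i, q i ∈ S ∧ g (q i) = 0) ∧ AffineIndependent ℝ q

/-- A5: a simplex with one vertex at `x` which does not overlap the convex hull of `S`. -/
def A5 : Prop := ∀ (m : ℕ) (S : Finset (EuclideanSpace ℝ (Fin m))) (x : EuclideanSpace ℝ (Fin m)),
  affineSpan ℝ (S : Set (EuclideanSpace ℝ (Fin m))) = ⊤ →
  x ∉ convexHull ℝ (S : Set (EuclideanSpace ℝ (Fin m))) →
  ∃ p : Fin (m + 1) → EuclideanSpace ℝ (Fin m), (∀ i, p i = x ∨ p i ∈ S) ∧ 0 < sv p ∧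
    volume (convexHull ℝ (Set.range p) ∩ convexHull ℝ (S : Set (EuclideanSpace ℝ (Fin m)))) = 0

/-- A6: lower bound for the volume of the convex hull. -/
def A6 : Prop := ∀ (m : ℕ) (S : Finset (EuclideanSpace ℝ (Fin m))) (t : ℝ),
  affineSpan ℝ (S : Set (EuclideanSpace ℝ (Fin m))) = ⊤ →
  (∀ p : Fin (m + 1) → EuclideanSpace ℝ (Fin m), (∀ i, p i ∈ S) → 0 < sv p → t ≤ sv p) →
  ((S.card : ℝ) - m) * t ≤ volume.real (convexHull ℝ (S : Set (EuclideanSpace ℝ (Fin m))))

/-- B1a: the determinants of the point set `{0, e_1, ..., e_a} × {0, e_1, ..., e_b}` are `0, 1, -1`. -/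
def B1a : Prop := ∀ (a b : ℕ) (u : Fin (a + b + 1) → Option (Fin a) × Option (Fin b)),
  let P : Option (Fin a) × Option (Fin b) → Fin (a + b) → ℝ := fun w k =>
    Sum.elim (fun i => if w.1 = some i then (1 : ℝ) else 0) (fun j => if w.2 = some j then (1 : ℝ) else 0)
      (finSumFinEquiv.symm k)
  (Matrix.of (fun i j : Fin (a + b) => P (u i.succ) j - P (u 0) j)).det = 0 ∨
  |(Matrix.of (fun i j : Fin (a + b) => P (u i.succ) j - P (u 0) j)).det| = 1

/-- B1: the product of two simplices. -/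
def B1 : Prop := ∀ a b : ℕ, ∃ (S : Finset (EuclideanSpace ℝ (Fin (a + b)))) (v : ℝ),
  S.card = (a + 1) * (b + 1) ∧
  affineSpan ℝ (S : Set (EuclideanSpace ℝ (Fin (a + b)))) = ⊤ ∧
  ∀ p : Fin (a + b + 1) → EuclideanSpace ℝ (Fin (a + b)), (∀ i, p i ∈ S) → sv p = 0 ∨ sv p = v

/-- B2: point sets all of whose simplices of positive volume have the same volume. -/
def B2 : Prop := ∀ m n : ℕ, m + 1 ≤ n → 4 * n ≤ (m + 2) ^ 2 →
  ∃ (S : Finset (EuclideanSpace ℝ (Fin m))) (v : ℝ), S.card = n ∧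
  affineSpan ℝ (S : Set (EuclideanSpace ℝ (Fin m))) = ⊤ ∧
  ∀ p : Fin (m + 1) → EuclideanSpace ℝ (Fin m), (∀ i, p i ∈ S) → sv p = 0 ∨ sv p = v

end Pool.Agent.H441SX
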